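import Pool.Agent.H56.TI2.Bad

/-!
# TI2 Blk: the theorem for blocks
-/

set_option autoImplicit false

namespace Pool.Agent.H56.TI2

open Finset
open Pool.Agent.H56.TI
open Pool.Agent.H91.PK (ee)
open Pool.Agent.H35.W (pb)
open Pool.Agent.H53.MID (Bs nz)

/-- the sum over disjoint blocks -/
private theorem Blk_disj (B G : Finset ℕ) (H : ℕ) (T : ℝ)
    (hG : ∀ i ∈ G, T ≤ ((B.filter (fun x => i * H ≤ x ∧ x < (i + 1) * H)).card : ℝ)) :
    (G.card : ℝ) * T ≤ B.card := by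
  have h1 : (G.card : ℝ) * T ≤
      ∑ i ∈ G, ((B.filter (fun x => i * H ≤ x ∧ x < (i + 1) * H)).card : ℝ) := by
    rw [← nsmul_eq_mul]
    exact card_nsmul_le_sum _ _ _ hG
  refine h1.trans ?_
  rw [← Nat.cast_sum, ← card_biUnion]
  · exact_mod_cast card_le_card (biUnion_subset.2 fun i _ => filter_subset _ _)
  · intro i _ j _ hij
    rw [Function.onFun, Finset.disjoint_left]
    intro x hx hx'
    rw [mem_filter] at hx hx'
    rcases lt_or_gt_of_ne hij with h | h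
    · have h2 : (i + 1) * H ≤ j * H := Nat.mul_le_mul_right _ h
      omega
    · have h2 : (j + 1) * H ≤ i * H := Nat.mul_le_mul_right _ h
      omega

/-- the arithmetic of the number of the bad centres -/
private theorem Blk_num1 {Bx K J X E C y η : ℝ} (hK : 1 ≤ K) (hX : 0 ≤ X) (hE : 0 ≤ E) (hC : 0 < C)
    (hy : 1 ≤ y) (hη : η = K / y ^ 2) (hJ : J ≤ 2 * K * y ^ 4)
    (h : Bx * η ^ 4 ≤ C * J * K ^ 3 * X * E) :
    Bx ≤ 2 * C * X * E * y ^ 12 := by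
  have hK0 : 0 < K := by linarith
  have hy0 : 0 < y := by linarith
  have h1 : Bx * K ^ 4 ≤ C * J * K ^ 3 * X * E * y ^ 8 := by
    have e : Bx * K ^ 4 = Bx * η ^ 4 * y ^ 8 := by
      rw [hη]
      field_simp
    rw [e]
    exact mul_le_mul_of_nonneg_right h (by positivity)
  have h2 : C * J * K ^ 3 * X * E * y ^ 8 ≤ C * (2 * K * y ^ 4) * K ^ 3 * X * E * y ^ 8 := by
    gcongr
  have h3 : Bx * K ^ 4 ≤ (2 * C * X * E * y ^ 12) * K ^ 4 := by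
    calc Bx * K ^ 4 ≤ C * (2 * K * y ^ 4) * K ^ 3 * X * E * y ^ 8 := h1.trans h2
      _ = (2 * C * X * E * y ^ 12) * K ^ 4 := by ring
  exact le_of_mul_le_mul_right h3 (by positivity)

/-- the arithmetic of the number of the bad blocks -/
private theorem Blk_num2 {Bt Bx n H C y L q K : ℝ} (hC : 0 < C) (hyC : 120 * C * L ^ 2 ≤ y) (hy : 1 ≤ y)
    (hn : 0 ≤ n) (hH : 0 < H) (_hK : 0 < K) (hq : q = 1 / y ^ 36) (hKy : y ^ 36 ≤ K)
    (h1 : Bx ≤ 2 * C * (20 * n) * ((q + q ^ 2 + 1 / K) * L ^ 2) * y ^ 12)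
    (h2 : Bt * (H / y ^ 8) ≤ Bx) : Bt ≤ n / y / H := by
  have hy0 : 0 < y := by linarith
  have hq0 : 0 < q := by
    rw [hq]
    positivity
  have hq1 : q ≤ 1 := by
    rw [hq, div_le_one (by positivity)]
    exact one_le_pow₀ hy
  have hq2 : q ^ 2 ≤ q := by nlinarith
  have hq3 : 1 / K ≤ q := by
    rw [hq]
    exact one_div_le_one_div_of_le (by positivity) hKy
  have h3 : (q + q ^ 2 + 1 / K) * L ^ 2 ≤ (3 * q) * L ^ 2 :=
    mul_le_mul_of_nonneg_right (by linarith) (sq_nonneg L)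
  have h4 : Bx ≤ 2 * C * (20 * n) * ((3 * q) * L ^ 2) * y ^ 12 := by
    refine h1.trans ?_
    gcongr
  have h5 : 2 * C * (20 * n) * ((3 * q) * L ^ 2) * y ^ 12 = (120 * C * L ^ 2) * (n * q * y ^ 12) := by ring
  have h6 : (120 * C * L ^ 2) * (n * q * y ^ 12) ≤ y * (n * q * y ^ 12) :=
    mul_le_mul_of_nonneg_right hyC (by positivity)
  have h7 : y * (n * q * y ^ 12) = n / y ^ 23 := by
    rw [hq]
    field_simp
  have h8 : Bt * H ≤ n / y ^ 15 := by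
    have h9 : Bt * (H / y ^ 8) * y ^ 8 ≤ n / y ^ 23 * y ^ 8 :=
      mul_le_mul_of_nonneg_right (by linarith) (by positivity)
    have e1 : Bt * (H / y ^ 8) * y ^ 8 = Bt * H := by
      field_simp
    have e2 : n / y ^ 23 * y ^ 8 = n / y ^ 15 := by
      field_simp
    rwa [e1, e2] at h9
  rw [le_div_iff₀ hH]
  refine h8.trans ?_
  exact div_le_div_of_nonneg_left hn hy0 (le_self_pow₀ hy (by norm_num))

/-- the arithmetic of a good block -/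
private theorem Blk_num3 {H y b cnt K η : ℝ} (hy : 1 ≤ y) (hyb : 1 + 5 * b ≤ y) (hb : 0 ≤ b)
    (hH : 0 ≤ H) (hK0 : 0 < K) (hη : η = K / y ^ 2) (hcnt : cnt ≤ H / y ^ 8)
    (hK : K ≤ H / y ^ 4) : H * η / K + b * cnt + 4 * K * b ≤ H * y⁻¹ := by
  have hy0 : 0 < y := by linarith
  have e1 : H * η / K = H / y ^ 2 := by
    rw [hη]
    field_simp
  have h1 : H / y ^ 8 ≤ H / y ^ 2 :=
    div_le_div_of_nonneg_left hH (by positivity) (pow_le_pow_right₀ hy (by norm_num))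
  have h2 : H / y ^ 4 ≤ H / y ^ 2 :=
    div_le_div_of_nonneg_left hH (by positivity) (pow_le_pow_right₀ hy (by norm_num))
  have h3 : b * cnt ≤ b * (H / y ^ 2) := mul_le_mul_of_nonneg_left (hcnt.trans h1) hb
  have h4 : 4 * K * b ≤ 4 * b * (H / y ^ 2) := by
    have : K * b ≤ H / y ^ 2 * b := mul_le_mul_of_nonneg_right (hK.trans h2) hb
    linarith
  rw [e1]
  calc H / y ^ 2 + b * cnt + 4 * K * b ≤ H / y ^ 2 + b * (H / y ^ 2) + 4 * b * (H / y ^ 2) := by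
        linarith
    _ = (1 + 5 * b) * (H / y ^ 2) := by ring
    _ ≤ y * (H / y ^ 2) := mul_le_mul_of_nonneg_right hyb (by positivity)
    _ = H * y⁻¹ := by
        field_simp

/-- the logarithms -/
private theorem Blk_log (δ : ℝ) (hδ : 0 < δ) (hδ1 : δ ≤ 1) (N : ℕ) (hN : 1 ≤ N) :
    ((Nat.log 2 (40 * N) : ℝ) + 1) ^ 2 ≤ (1 + 320 / δ) ^ 2 * (N : ℝ) ^ (δ / 2) := by
  have hn1 : (1 : ℝ) ≤ N := by exact_mod_cast hN
  have hn0 : (0 : ℝ) < N := by linarith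
  have h1 : (Nat.log 2 (40 * N) : ℝ) * Real.log 2 ≤ Real.log (40 * N) := by
    have h2 : 2 ^ Nat.log 2 (40 * N) ≤ 40 * N := Nat.pow_log_le_self 2 (by omega)
    have h3 : ((2 : ℝ) ^ Nat.log 2 (40 * N)) ≤ 40 * N := by exact_mod_cast h2
    have h4 := Real.log_le_log (by positivity) h3
    rwa [Real.log_pow] at h4
  have h2 : Real.log (40 * N) ≤ (40 * N) ^ (δ / 4) / (δ / 4) := Real.log_le_rpow_div (by positivity) (by positivity)
  have h3 : (40 * (N : ℝ)) ^ (δ / 4) ≤ 40 * (N : ℝ) ^ (δ / 4) := by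
    rw [Real.mul_rpow (by norm_num) hn0.le]
    apply mul_le_mul_of_nonneg_right _ (by positivity)
    calc (40 : ℝ) ^ (δ / 4) ≤ 40 ^ (1 : ℝ) := Real.rpow_le_rpow_of_exponent_le (by norm_num) (by linarith)
      _ = 40 := Real.rpow_one _
  have hlog2 : (1 / 2 : ℝ) ≤ Real.log 2 := by
    have := Real.log_two_gt_d9
    linarith
  have h4 : (Nat.log 2 (40 * N) : ℝ) ≤ 320 / δ * (N : ℝ) ^ (δ / 4) := by
    have h5 : (Nat.log 2 (40 * N) : ℝ) * (1 / 2) ≤ 40 * (N : ℝ) ^ (δ / 4) / (δ / 4) := by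
      calc (Nat.log 2 (40 * N) : ℝ) * (1 / 2) ≤ (Nat.log 2 (40 * N) : ℝ) * Real.log 2 :=
            mul_le_mul_of_nonneg_left hlog2 (Nat.cast_nonneg _)
        _ ≤ _ := h1.trans (h2.trans (div_le_div_of_nonneg_right h3 (by positivity)))
    have h6 : 40 * (N : ℝ) ^ (δ / 4) / (δ / 4) = (320 / δ * (N : ℝ) ^ (δ / 4)) * (1 / 2) := by
      field_simp
      ring
    rw [h6] at h5
    exact le_of_mul_le_mul_right h5 (by norm_num)
  have h5 : (1 : ℝ) ≤ (N : ℝ) ^ (δ / 4) := Real.one_le_rpow hn1 (by positivity)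
  have h6 : (Nat.log 2 (40 * N) : ℝ) + 1 ≤ (1 + 320 / δ) * (N : ℝ) ^ (δ / 4) := by
    linarith
  calc ((Nat.log 2 (40 * N) : ℝ) + 1) ^ 2 ≤ ((1 + 320 / δ) * (N : ℝ) ^ (δ / 4)) ^ 2 :=
        pow_le_pow_left₀ (by positivity) h6 2
    _ = (1 + 320 / δ) ^ 2 * (N : ℝ) ^ (δ / 2) := by
        rw [mul_pow]
        congr 1
        rw [← Real.rpow_natCast, ← Real.rpow_mul hn0.le]
        congr 1
        push_cast
        ring

/-- the new range -/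
private theorem Blk_core (e0 e : ℝ) (he0 : 0 < e0) (he : 0 < e) : ∃ δ : ℝ, 0 < δ ∧ ∃ N0 : ℕ, ∀ N : ℕ, N0 ≤ N →
    ∀ (H P : ℕ) (w : ℕ → ℝ), (N : ℝ) ^ e0 ≤ H → H ^ 2 ≤ N → H ≤ P → 40 * N ≤ P ^ 4 →
      (P : ℝ) ^ 4 * (N : ℝ) ^ e ≤ N * (H : ℝ) ^ 2 →
      (∀ p, |w p| ≤ 1) → ((badT P w N H δ).card : ℝ) ≤ (N : ℝ) ^ (1 - δ) / H := by
  classical
  obtain ⟨C, hC, hbad⟩ := bad2_le
  obtain ⟨C', hC'⟩ : ∃ C' : ℝ, C' = C * 4 ^ 4 := ⟨_, rfl⟩
  have hC'0 : 0 < C' := by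
    rw [hC']
    positivity
  obtain ⟨b, hb⟩ : ∃ b : ℝ, b = 5 := ⟨_, rfl⟩
  have hb0 : 0 ≤ b := by
    rw [hb]
    norm_num
  obtain ⟨δ, hδ⟩ : ∃ δ : ℝ, δ = min (min e0 e) 1 / 80 := ⟨_, rfl⟩
  have hm0 : 0 < min (min e0 e) 1 := lt_min (lt_min he0 he) one_pos
  have hδ0 : 0 < δ := by
    rw [hδ]
    positivity
  have hδ1 : δ ≤ 1 := by
    have h1 : min (min e0 e) 1 ≤ 1 := min_le_right _ _
    rw [hδ]
    linarith
  have hδe0 : δ * 80 ≤ e0 := by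
    have h1 : min (min e0 e) 1 ≤ e0 := (min_le_left _ _).trans (min_le_left _ _)
    rw [hδ]
    linarith
  have hδe : δ * 80 ≤ e := by
    have h1 : min (min e0 e) 1 ≤ e := (min_le_left _ _).trans (min_le_right _ _)
    rw [hδ]
    linarith
  obtain ⟨D, hD⟩ : ∃ D : ℝ, D = 120 * C' * (1 + 320 / δ) ^ 2 := ⟨_, rfl⟩
  obtain ⟨N0, hN0⟩ : ∃ N0 : ℕ, ∀ N : ℕ, N0 ≤ N → 31 * b + 50 + D ^ 2 ≤ (N : ℝ) ^ δ := by
    have h1 := (tendsto_rpow_atTop hδ0).comp (tendsto_natCast_atTop_atTop (R := ℝ))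
    obtain ⟨N0, h2⟩ := Filter.eventually_atTop.1
      (h1.eventually_ge_atTop (31 * b + 50 + D ^ 2))
    exact ⟨N0, fun N hN => h2 N hN⟩
  refine ⟨δ, hδ0, max N0 50, fun N hN H P w hH hH2 hHP hNP hP4 hw => ?_⟩
  have hNN0 : N0 ≤ N := (le_max_left _ _).trans hN
  have hN50 : 50 ≤ N := (le_max_right _ _).trans hN
  have hn50 : (50 : ℝ) ≤ N := by exact_mod_cast hN50
  have hn1 : (1 : ℝ) ≤ N := by linarith
  have hn0 : (0 : ℝ) < N := by linarith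
  obtain ⟨y, hy⟩ : ∃ y : ℝ, y = (N : ℝ) ^ δ := ⟨_, rfl⟩
  have hyA : 31 * b + 50 + D ^ 2 ≤ y := by
    rw [hy]
    exact hN0 N hNN0
  have hy50 : 50 ≤ y := by nlinarith [sq_nonneg D]
  have hy31 : 31 * b ≤ y := by nlinarith [sq_nonneg D]
  have hy1 : 1 ≤ y := by linarith
  have hy0 : 0 < y := by linarith
  have hy80 : y ^ 80 = (N : ℝ) ^ (δ * 80) := by
    rw [hy, Real.rpow_mul hn0.le]
    exact_mod_cast (Real.rpow_natCast ((N : ℝ) ^ δ) 80).symm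
  have hyH : y ^ 80 ≤ H := by
    rw [hy80]
    exact (Real.rpow_le_rpow_of_exponent_le hn1 hδe0).trans hH
  have hye : y ^ 80 ≤ (N : ℝ) ^ e := by
    rw [hy80]
    exact Real.rpow_le_rpow_of_exponent_le hn1 hδe
  have hyneg : (N : ℝ) ^ (-δ) = y⁻¹ := by
    rw [hy]
    exact Real.rpow_neg hn0.le δ
  have hy1d : (N : ℝ) ^ (1 - δ) = N / y := by
    rw [hy, Real.rpow_sub hn0, Real.rpow_one]
  -- the logarithm
  have hL : 120 * C' * ((Nat.log 2 (40 * N) : ℝ) + 1) ^ 2 ≤ y := by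
    have h1 := Blk_log δ hδ0 hδ1 N (by omega)
    have hz : (N : ℝ) ^ (δ / 2) * (N : ℝ) ^ (δ / 2) = y := by
      rw [← Real.rpow_add hn0, hy]
      congr 1
      ring
    have hz0 : 0 < (N : ℝ) ^ (δ / 2) := by positivity
    have hD2 : D ≤ (N : ℝ) ^ (δ / 2) := by
      by_contra hc
      push Not at hc
      have h2 : (N : ℝ) ^ (δ / 2) * (N : ℝ) ^ (δ / 2) < D * D :=
        mul_lt_mul'' hc hc hz0.le hz0.le
      rw [hz] at h2
      nlinarith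
    calc 120 * C' * ((Nat.log 2 (40 * N) : ℝ) + 1) ^ 2 ≤ 120 * C' * ((1 + 320 / δ) ^ 2 * (N : ℝ) ^ (δ / 2)) :=
          mul_le_mul_of_nonneg_left h1 (by positivity)
      _ = D * (N : ℝ) ^ (δ / 2) := by
          rw [hD]
          ring
      _ ≤ (N : ℝ) ^ (δ / 2) * (N : ℝ) ^ (δ / 2) := mul_le_mul_of_nonneg_right hD2 hz0.le
      _ = y := hz
  have hH50 : (50 : ℝ) ≤ y ^ 80 := hy50.trans (le_self_pow₀ hy1 (by norm_num))
  have hH50' : (50 : ℝ) ≤ H := hH50.trans hyH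
  have hH400' : 50 ≤ H := by exact_mod_cast hH50'
  have hH0 : (0 : ℝ) < H := by linarith
  have hHN : H ≤ N := (Nat.le_self_pow two_ne_zero H).trans hH2
  have hHn : (H : ℝ) ≤ N := by exact_mod_cast hHN
  -- the primes
  have hP20 : 20 ≤ P := by omega
  have hPk : 40 * N < P ^ (4 + 1) := by
    refine lt_of_le_of_lt hNP ?_
    exact Nat.pow_lt_pow_right (by omega) (by norm_num)
  have hphi : ∀ m, 1 ≤ m → m ≤ 2 * (20 * N) → |Phi P w m| ≤ b := by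
    intro m hm hm'
    have := phi_abs P 4 m w hw (by omega) hm (by omega)
    rw [hb]
    refine this.trans (le_of_eq ?_)
    norm_num
  -- the parameters
  obtain ⟨K, hKd⟩ : ∃ K : ℕ, K = ⌊(H : ℝ) / y ^ 4⌋₊ := ⟨_, rfl⟩
  have hy4 : 0 < y ^ 4 := by positivity
  have hy41 : 1 ≤ y ^ 4 := one_le_pow₀ hy1
  have hHy : 1 ≤ (H : ℝ) / y ^ 4 := by
    rw [le_div_iff₀ hy4, one_mul]
    exact (pow_le_pow_right₀ hy1 (by norm_num)).trans hyH
  have hKle : (K : ℝ) ≤ H / y ^ 4 := by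
    rw [hKd]
    exact Nat.floor_le (by positivity)
  have hK1 : 1 ≤ K := by
    rw [hKd]
    exact Nat.le_floor (by exact_mod_cast hHy)
  have hK1' : (1 : ℝ) ≤ K := by exact_mod_cast hK1
  have hK0 : (0 : ℝ) < K := by linarith
  have hKge : (H : ℝ) ≤ 2 * y ^ 4 * K := by
    have h1 : (H : ℝ) / y ^ 4 < K + 1 := by
      rw [hKd]
      exact Nat.lt_floor_add_one _
    rw [div_lt_iff₀ hy4] at h1
    have h2 : ((K : ℝ) + 1) * y ^ 4 ≤ (2 * K) * y ^ 4 :=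
      mul_le_mul_of_nonneg_right (by linarith) hy4.le
    linarith
  have hKy : y ^ 36 ≤ K := by
    have h1 : (2 * y ^ 4) * y ^ 36 ≤ (2 * y ^ 4) * K := by
      calc (2 * y ^ 4) * y ^ 36 = 2 * y ^ 40 := by ring
        _ ≤ y * y ^ 40 := mul_le_mul_of_nonneg_right (by linarith) (by positivity)
        _ = y ^ 41 := by ring
        _ ≤ y ^ 80 := pow_le_pow_right₀ hy1 (by norm_num)
        _ ≤ H := hyH
        _ ≤ _ := hKge
    exact le_of_mul_le_mul_left h1 (by positivity)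
  have hKH' : (K : ℝ) ≤ H := hKle.trans (div_le_self hH0.le hy41)
  have hKH : K ≤ H := by exact_mod_cast hKH'
  obtain ⟨J, hJd⟩ : ∃ J : ℕ, J = ⌈(K : ℝ) * y ^ 4⌉₊ := ⟨_, rfl⟩
  have hJge : (K : ℝ) * y ^ 4 ≤ J := by
    rw [hJd]
    exact Nat.le_ceil _
  have hJle : (J : ℝ) ≤ 2 * K * y ^ 4 := by
    have h1 : (J : ℝ) < K * y ^ 4 + 1 := by
      rw [hJd]
      exact Nat.ceil_lt_add_one (by positivity)
    have h2 : 1 ≤ (K : ℝ) * y ^ 4 := one_le_mul_of_one_le_of_one_le hK1' hy41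
    linarith
  have hKJ : K ≤ J := by
    have h1 : (K : ℝ) ≤ K * y ^ 4 := le_mul_of_one_le_right hK0.le hy41
    exact_mod_cast h1.trans hJge
  obtain ⟨η, hη⟩ : ∃ η : ℝ, η = K / y ^ 2 := ⟨_, rfl⟩
  have hη0 : 0 < η := by
    rw [hη]
    positivity
  have h26 : 26 * (K : ℝ) ^ 2 * b ≤ η * J := by
    have h1 : η * (K * y ^ 4) ≤ η * J := mul_le_mul_of_nonneg_left hJge hη0.le
    have h2 : η * (K * y ^ 4) = (K : ℝ) ^ 2 * y ^ 2 := by
      rw [hη]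
      field_simp
    have h3 : 26 * b ≤ y ^ 2 := by
      have h4 : 26 * b ≤ y := by linarith
      exact h4.trans (le_self_pow₀ hy1 two_ne_zero)
    calc 26 * (K : ℝ) ^ 2 * b = (K : ℝ) ^ 2 * (26 * b) := by ring
      _ ≤ (K : ℝ) ^ 2 * y ^ 2 := mul_le_mul_of_nonneg_left h3 (by positivity)
      _ = η * (K * y ^ 4) := h2.symm
      _ ≤ η * J := h1
  obtain ⟨q, hq⟩ : ∃ q : ℝ, q = 1 / y ^ 36 := ⟨_, rfl⟩
  have hq0 : 0 < q := by
    rw [hq]
    positivity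
  have hqq : (P : ℝ) ^ 4 ≤ q ^ 2 * (K ^ 2 * (20 * N : ℕ)) := by
    have h1 : (P : ℝ) ^ 4 * y ^ 80 ≤ N * (H : ℝ) ^ 2 :=
      (mul_le_mul_of_nonneg_left hye (by positivity)).trans hP4
    have h2 : (H : ℝ) ^ 2 ≤ (2 * y ^ 4 * K) ^ 2 := pow_le_pow_left₀ hH0.le hKge 2
    have h3 : (P : ℝ) ^ 4 * y ^ 80 ≤ N * (2 * y ^ 4 * K) ^ 2 :=
      h1.trans (mul_le_mul_of_nonneg_left h2 hn0.le)
    have h4 : q ^ 2 * (K ^ 2 * (20 * N : ℕ)) * y ^ 80 = 20 * (N * K ^ 2 * y ^ 8) := by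
      rw [hq]
      push_cast
      field_simp
    have h5 : (P : ℝ) ^ 4 * y ^ 80 ≤ (q ^ 2 * (K ^ 2 * (20 * N : ℕ))) * y ^ 80 := by
      rw [h4]
      have h6 : (N : ℝ) * (2 * y ^ 4 * K) ^ 2 = 4 * (N * K ^ 2 * y ^ 8) := by ring
      rw [h6] at h3
      have h7 : 0 ≤ (N : ℝ) * K ^ 2 * y ^ 8 := by positivity
      linarith
    exact le_of_mul_le_mul_right h5 (by positivity)
  -- the bad centres
  have hbx := hbad P K J (20 * N) 4 w η b q hP20 (by norm_num) hK1 hKJ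
    ((Nat.pow_le_pow_left hKH 2).trans (by omega)) ((hKH.trans hHP).trans (by omega)) (by omega)
    (by omega) hq0.le hqq hw hη0 hb0 hphi h26
  have e40 : 2 * (20 * N) = 40 * N := by ring
  rw [e40] at hbx
  push_cast at hbx
  rw [← hC'] at hbx
  have hnum1 := Blk_num1 (X := 20 * (N : ℝ)) hK1' (by positivity)
    (by positivity : 0 ≤ (q + q ^ 2 + 1 / (K : ℝ)) * ((Nat.log 2 (40 * N) : ℝ) + 1) ^ 2) hC'0 hy1 hη hJle hbx
  -- the bad blocks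
  have hcount : ((badT P w N H δ).card : ℝ) * (H / y ^ 8) ≤
      ((badx P K w η (20 * N)).card : ℝ) := by
    refine Blk_disj _ _ H _ fun i hi => ?_
    unfold badT at hi
    rw [mem_filter, mem_Icc] at hi
    obtain ⟨⟨hi1, hi2⟩, α, hα⟩ := hi
    by_contra hcon
    push Not at hcon
    have hiH : i * H ≤ 16 * N := (Nat.mul_le_mul_right _ hi2).trans (Nat.div_mul_le_self _ _)
    have h1 := blk_tri P K H i (20 * N) w α η b hK1 hKH hi1 (by rw [add_mul]; omega) hη0.le hb0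
      (fun m hm hm' => hphi m hm (by omega))
    have h2 := Blk_num3 (b := b) hy1 (by rw [hb] at hy31 ⊢; linarith) hb0 hH0.le hK0 hη hcon.le hKle
    rw [hyneg] at hα
    linarith
  rw [hy1d]
  exact Blk_num2 hC'0 hL hy1 hn0.le hH0 hK0 hq hKy hnum1 hcount

/-- MAIN THEOREM: local Fourier uniformity of type I sums, level `P^4 N^e ≤ N H^2` -/
theorem ti2_lfu (e0 e : ℝ) (he0 : 0 < e0) (he : 0 < e) : ∃ δ : ℝ, 0 < δ ∧ ∃ N0 : ℕ, ∀ N : ℕ, N0 ≤ N →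
    ∀ (H P : ℕ) (w : ℕ → ℝ), (N : ℝ) ^ e0 ≤ H → (H : ℝ) ^ 3 * (N : ℝ) ^ e ≤ N → H ≤ P ^ 2 →
      (P : ℝ) ^ 4 * (N : ℝ) ^ e ≤ N * (H : ℝ) ^ 2 →
      (∀ p, |w p| ≤ 1) → ((badT P w N H δ).card : ℝ) ≤ (N : ℝ) ^ (1 - δ) / H := by
  classical
  obtain ⟨e1, he1⟩ : ∃ e1 : ℝ, e1 = min e0 e / 2 := ⟨_, rfl⟩
  have hmin : 0 < min e0 e := lt_min he0 he
  have he10 : 0 < e1 := by
    rw [he1]
    positivity
  have he1a : e1 ≤ e := by
    have := min_le_right e0 e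
    rw [he1]
    linarith
  have he1b : e1 ≤ e0 / 2 := by
    have := min_le_left e0 e
    rw [he1]
    linarith
  obtain ⟨δ1, hδ1, N1, h1⟩ := ti_lfu e0 e1 he0 he10
  obtain ⟨δ2, hδ2, N2, h2⟩ := Blk_core e0 e he0 he
  obtain ⟨N3, hN3⟩ : ∃ N3 : ℕ, ∀ N : ℕ, N3 ≤ N → 40 ≤ (N : ℝ) ^ (e0 / 2) := by
    have h1 := (tendsto_rpow_atTop (half_pos he0)).comp (tendsto_natCast_atTop_atTop (R := ℝ))
    obtain ⟨N0, h2⟩ := Filter.eventually_atTop.1 (h1.eventually_ge_atTop (40 : ℝ))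
    exact ⟨N0, fun N hN => h2 N hN⟩
  refine ⟨min δ1 δ2, lt_min hδ1 hδ2, max (max N1 N2) (max N3 1), fun N hN H P w hH hH3 hHP hP4 hw => ?_⟩
  have hNa : N1 ≤ N := ((le_max_left _ _).trans (le_max_left _ _)).trans hN
  have hNb : N2 ≤ N := ((le_max_right _ _).trans (le_max_left _ _)).trans hN
  have hNc : N3 ≤ N := ((le_max_left _ _).trans (le_max_right _ _)).trans hN
  have hNd : 1 ≤ N := ((le_max_right _ _).trans (le_max_right _ _)).trans hN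
  have hn1 : (1 : ℝ) ≤ N := by exact_mod_cast hNd
  have hn0 : (0 : ℝ) < N := by linarith
  have hH1 : (1 : ℝ) ≤ H := (Real.one_le_rpow hn1 he0.le).trans hH
  have hH0 : (0 : ℝ) < H := by linarith
  have hH2 : H ^ 2 ≤ N := by
    have h3 : (H : ℝ) ^ 2 ≤ N := by
      calc (H : ℝ) ^ 2 ≤ (H : ℝ) ^ 3 := pow_le_pow_right₀ hH1 (by norm_num)
        _ ≤ (H : ℝ) ^ 3 * (N : ℝ) ^ e := le_mul_of_one_le_right (by positivity) (Real.one_le_rpow hn1 he.le)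
        _ ≤ N := hH3
    exact_mod_cast h3
  -- monotonicity in `δ`
  have hmono : ∀ δ' : ℝ, min δ1 δ2 ≤ δ' → ((badT P w N H δ').card : ℝ) ≤ (N : ℝ) ^ (1 - δ') / H →
      ((badT P w N H (min δ1 δ2)).card : ℝ) ≤ (N : ℝ) ^ (1 - min δ1 δ2) / H := by
    intro δ' hδ' h
    have hsub : badT P w N H (min δ1 δ2) ⊆ badT P w N H δ' := by
      intro i hi
      unfold badT at hi ⊢
      rw [mem_filter] at hi ⊢
      obtain ⟨hi1, α, hα⟩ := hi
      refine ⟨hi1, α, lt_of_le_of_lt ?_ hα⟩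
      apply mul_le_mul_of_nonneg_left _ hH0.le
      exact Real.rpow_le_rpow_of_exponent_le hn1 (by linarith)
    have h3 : ((badT P w N H (min δ1 δ2)).card : ℝ) ≤ (badT P w N H δ').card := by
      exact_mod_cast card_le_card hsub
    refine h3.trans (h.trans ?_)
    apply div_le_div_of_nonneg_right _ hH0.le
    exact Real.rpow_le_rpow_of_exponent_le hn1 (by linarith)
  by_cases hc : (P : ℝ) ^ 4 * (N : ℝ) ^ e1 ≤ N * H
  · exact hmono δ1 (min_le_left _ _) (h1 N hNa H P w hH hH2 hHP hc hw)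
  · push Not at hc
    apply hmono δ2 (min_le_right _ _)
    have hne1 : 1 ≤ (N : ℝ) ^ e1 := Real.one_le_rpow hn1 he10.le
    refine h2 N hNb H P w hH hH2 ?_ ?_ hP4 hw
    · -- H ≤ P
      have h3 : (H : ℝ) ^ 4 * (N : ℝ) ^ e ≤ (N : ℝ) * H := by
        calc (H : ℝ) ^ 4 * (N : ℝ) ^ e = ((H : ℝ) ^ 3 * (N : ℝ) ^ e) * (H : ℝ) := by ring
          _ ≤ (N : ℝ) * H := mul_le_mul_of_nonneg_right hH3 hH0.le
      have h4 : (N : ℝ) ^ e1 ≤ (N : ℝ) ^ e := Real.rpow_le_rpow_of_exponent_le hn1 he1a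
      have h5 : (H : ℝ) ^ 4 * (N : ℝ) ^ e1 < (P : ℝ) ^ 4 * (N : ℝ) ^ e1 :=
        lt_of_le_of_lt ((mul_le_mul_of_nonneg_left h4 (by positivity)).trans h3) hc
      have h6 : (H : ℝ) ^ 4 < (P : ℝ) ^ 4 := lt_of_mul_lt_mul_right h5 (by positivity)
      have h7 : H ^ 4 < P ^ 4 := by exact_mod_cast h6
      exact (lt_of_pow_lt_pow_left₀ 4 (Nat.zero_le _) h7).le
    · -- 40 N ≤ P^4
      have h3 : (N : ℝ) ^ e1 ≤ (N : ℝ) ^ (e0 / 2) := Real.rpow_le_rpow_of_exponent_le hn1 he1b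
      have h4 : (N : ℝ) ^ (e0 / 2) * (N : ℝ) ^ (e0 / 2) = (N : ℝ) ^ e0 := by
        rw [← Real.rpow_add hn0]
        congr 1
        ring
      have h40 := hN3 N hNc
      have h5 : (40 * (N : ℝ)) * (N : ℝ) ^ e1 ≤ (P : ℝ) ^ 4 * (N : ℝ) ^ e1 := by
        calc (40 * (N : ℝ)) * (N : ℝ) ^ e1 ≤ ((N : ℝ) ^ (e0 / 2) * N) * (N : ℝ) ^ (e0 / 2) := by
              gcongr
          _ = (N : ℝ) * ((N : ℝ) ^ (e0 / 2) * (N : ℝ) ^ (e0 / 2)) := by ring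
          _ = (N : ℝ) * (N : ℝ) ^ e0 := by rw [h4]
          _ ≤ N * H := mul_le_mul_of_nonneg_left hH hn0.le
          _ ≤ _ := hc.le
      have h6 : 40 * (N : ℝ) ≤ (P : ℝ) ^ 4 := le_of_mul_le_mul_right h5 (by positivity)
      exact_mod_cast h6

end Pool.Agent.H56.TI2
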