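import Pool.Agent.H91.TQ.Defs
import Pool.Agent.H56.TI2.Blk

/-!
# TI2 TIw: `TIP θ κ e4` for `4κ < 1 + 2θ`, from `ti2_lfu` and `ti_S` (as `H91/TQ/TIw.lean`)
-/

set_option autoImplicit false

namespace Pool.Agent.H91.TQ

open Finset
open Pool.Agent.H91.PK (ee)
open Pool.Agent.H35.W (pb)
open Pool.Agent.H53.MID (Fp Bs badB)
open Pool.Agent.H76.TP

/-- powers of the logarithm -/
private theorem TIw2_log (A : ℕ) (c : ℝ) (hc : 0 < c) :
    ∃ N0 : ℕ, ∀ N : ℕ, N0 ≤ N → Real.log N ^ A ≤ (N : ℝ) ^ c := by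
  have h1 := (isLittleO_log_rpow_rpow_atTop (A : ℝ) hc).bound (show (0 : ℝ) < 1 by norm_num)
  rw [Filter.eventually_atTop] at h1
  obtain ⟨x0, hx0⟩ := h1
  refine ⟨max ⌈x0⌉₊ 1, fun N hN => ?_⟩
  have h2 : x0 ≤ (N : ℝ) :=
    le_trans (Nat.le_ceil x0) (by exact_mod_cast le_trans (le_max_left _ _) hN)
  have h3 : (1 : ℝ) ≤ (N : ℝ) := by exact_mod_cast le_trans (le_max_right _ _) hN
  have h4 := hx0 N h2
  have h5 : 0 ≤ Real.log N := Real.log_nonneg h3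
  rw [Real.rpow_natCast, one_mul, Real.norm_of_nonneg (pow_nonneg h5 A),
    Real.norm_of_nonneg (Real.rpow_nonneg (by linarith) _)] at h4
  exact h4

/-- small powers exceed two -/
private theorem TIw2_two (c : ℝ) (hc : 0 < c) :
    ∃ N0 : ℕ, ∀ N : ℕ, N0 ≤ N → (2 : ℝ) ≤ (N : ℝ) ^ c := by
  have h1 := (tendsto_rpow_atTop hc).eventually_ge_atTop 2
  rw [Filter.eventually_atTop] at h1
  obtain ⟨x0, hx0⟩ := h1
  refine ⟨⌈x0⌉₊, fun N hN => hx0 N ?_⟩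
  exact le_trans (Nat.le_ceil x0) (by exact_mod_cast hN)

/-- the two balanced functions agree -/
private theorem TIw2_phi (P m : ℕ) : Pool.Agent.H56.TI.Phi P (fun _ => 1) m = Ph P m := by
  unfold Pool.Agent.H56.TI.Phi Ph
  simp only [one_mul, Finset.sum_sub_distrib]
  congr 1
  rw [Finset.card_filter]
  push_cast
  rfl

/-- the longer type I information -/
theorem tip2 (θ κ : ℝ) (hθ : 1 / 5 < θ) (hθ2 : θ < 1 / 3) (hκ : 4 * κ < 1 + 2 * θ) :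
    ∃ e4 : ℝ, 0 < e4 ∧ e4 ≤ 1 / 100 ∧ TIP θ κ e4 := by
  obtain ⟨e, he_def⟩ : ∃ e : ℝ, e = min ((1 + 2 * θ - 4 * κ) / 2) (1 - 3 * θ) := ⟨_, rfl⟩
  have he : 0 < e := by
    rw [he_def]
    exact lt_min (by linarith) (by linarith)
  have hea : e ≤ (1 + 2 * θ - 4 * κ) / 2 := by
    rw [he_def]
    exact min_le_left _ _
  have heb : e ≤ 1 - 3 * θ := by
    rw [he_def]
    exact min_le_right _ _
  obtain ⟨δ, hδ, N1, hN1⟩ := Pool.Agent.H56.TI2.ti2_lfu (1 / 10) e (by norm_num) he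
  refine ⟨min (δ / 8) (1 / 100), lt_min (by linarith) (by norm_num), min_le_right _ _, ?_⟩
  intro A
  obtain ⟨N2, hN2⟩ := TIw2_log A (5 * δ / 8) (by linarith)
  obtain ⟨N3, hN3⟩ := TIw2_two (e / 2) (by linarith)
  obtain ⟨N4, hN4⟩ := TIw2_two (1 / 20) (by norm_num)
  refine ⟨max (max N1 N2) (max (max N3 N4) 16), ?_⟩
  intro N hN P Q g T hP1 hP2 hQ hT
  have a1 : N1 ≤ N := le_trans (le_trans (le_max_left _ _) (le_max_left _ _)) hN
  have a2 : N2 ≤ N := le_trans (le_trans (le_max_right _ _) (le_max_left _ _)) hN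
  have a3 : N3 ≤ N :=
    le_trans (le_trans (le_trans (le_max_left _ _) (le_max_left _ _)) (le_max_right _ _)) hN
  have a4 : N4 ≤ N :=
    le_trans (le_trans (le_trans (le_max_right _ _) (le_max_left _ _)) (le_max_right _ _)) hN
  have a5 : 16 ≤ N := le_trans (le_trans (le_max_right _ _) (le_max_right _ _)) hN
  have hlog := hN2 N a2
  have htwo := hN3 N a3
  have htwo2 := hN4 N a4
  have hNr : (16 : ℝ) ≤ N := by exact_mod_cast a5
  have hN0 : (0 : ℝ) < N := by linarith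
  have hN1r : (1 : ℝ) ≤ N := by linarith
  have hLpos : 0 < Real.log N := Real.log_pos (by linarith)
  have hLA : 0 < Real.log N ^ A := pow_pos hLpos A
  set H : ℕ := ⌊(N : ℝ) ^ θ⌋₊ with hH_def
  have hθN : 0 < (N : ℝ) ^ θ := Real.rpow_pos_of_pos hN0 _
  have hH_le : (H : ℝ) ≤ (N : ℝ) ^ θ := Nat.floor_le hθN.le
  have hH_gt : (N : ℝ) ^ θ < H + 1 := Nat.lt_floor_add_one _
  have h15 : 2 * (N : ℝ) ^ (1 / 10 : ℝ) ≤ (N : ℝ) ^ θ := by
    have h1 : (N : ℝ) ^ (1 / 20 : ℝ) * (N : ℝ) ^ (1 / 10 : ℝ) ≤ (N : ℝ) ^ θ := by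
      rw [← Real.rpow_add hN0]
      apply Real.rpow_le_rpow_of_exponent_le hN1r
      norm_num
      linarith
    have h2 : 0 < (N : ℝ) ^ (1 / 10 : ℝ) := Real.rpow_pos_of_pos hN0 _
    nlinarith
  have h15one : 1 ≤ (N : ℝ) ^ (1 / 10 : ℝ) := Real.one_le_rpow hN1r (by norm_num)
  have hHhalf : (N : ℝ) ^ θ / 2 ≤ H := by linarith
  have hc1 : (N : ℝ) ^ (1 / 10 : ℝ) ≤ H := by linarith
  have hH0r : (0 : ℝ) < H := by linarith
  have hH0 : 0 < H := by exact_mod_cast hH0r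
  have hc2 : (H : ℝ) ^ 3 * (N : ℝ) ^ e ≤ N := by
    have h1 : (H : ℝ) ^ 3 ≤ ((N : ℝ) ^ θ) ^ 3 := pow_le_pow_left₀ hH0r.le hH_le 3
    have h2 : ((N : ℝ) ^ θ) ^ 3 = (N : ℝ) ^ (3 * θ) := by
      rw [← Real.rpow_natCast, ← Real.rpow_mul hN0.le]
      congr 1
      push_cast
      ring
    have h3 : (N : ℝ) ^ (3 * θ) * (N : ℝ) ^ e ≤ (N : ℝ) ^ (1 : ℝ) := by
      rw [← Real.rpow_add hN0]
      apply Real.rpow_le_rpow_of_exponent_le hN1r
      linarith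
    rw [Real.rpow_one] at h3
    rw [h2] at h1
    exact (mul_le_mul_of_nonneg_right h1 (Real.rpow_nonneg hN0.le e)).trans h3
  have hc2n : H ^ 2 ≤ N := by
    have hH1r : (1 : ℝ) ≤ H := h15one.trans hc1
    have h1 : (H : ℝ) ^ 2 ≤ N := by
      calc (H : ℝ) ^ 2 ≤ (H : ℝ) ^ 3 := pow_le_pow_right₀ hH1r (by norm_num)
        _ ≤ (H : ℝ) ^ 3 * (N : ℝ) ^ e := le_mul_of_one_le_right (by positivity) (Real.one_le_rpow hN1r he.le)
        _ ≤ N := hc2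
    exact_mod_cast h1
  have hP0 : (0 : ℝ) < P := lt_of_lt_of_le (Real.rpow_pos_of_pos hN0 _) hP1
  have hc3r : (H : ℝ) ≤ (P : ℝ) ^ 2 := by
    have h1 : ((N : ℝ) ^ (1 / 5 : ℝ)) ^ 2 ≤ (P : ℝ) ^ 2 :=
      pow_le_pow_left₀ (Real.rpow_pos_of_pos hN0 _).le hP1 2
    have h2 : (N : ℝ) ^ θ ≤ ((N : ℝ) ^ (1 / 5 : ℝ)) ^ 2 := by
      rw [← Real.rpow_natCast, ← Real.rpow_mul hN0.le]
      apply Real.rpow_le_rpow_of_exponent_le hN1r
      push_cast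
      linarith
    linarith
  have hc3 : H ≤ P ^ 2 := by exact_mod_cast hc3r
  have hc4 : (P : ℝ) ^ 4 * (N : ℝ) ^ e ≤ N * (H : ℝ) ^ 2 := by
    have h1 : (P : ℝ) ^ 4 ≤ ((N : ℝ) ^ κ) ^ 4 := pow_le_pow_left₀ hP0.le hP2 4
    have h2 : ((N : ℝ) ^ κ) ^ 4 = (N : ℝ) ^ (4 * κ) := by
      rw [← Real.rpow_natCast, ← Real.rpow_mul hN0.le]
      congr 1
      push_cast
      ring
    have he0 : 0 < (N : ℝ) ^ e := Real.rpow_pos_of_pos hN0 _
    have h3 : (P : ℝ) ^ 4 * (N : ℝ) ^ e ≤ (N : ℝ) ^ (4 * κ) * (N : ℝ) ^ e := by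
      apply mul_le_mul_of_nonneg_right _ he0.le
      rw [← h2]
      exact h1
    have h4 : (N : ℝ) ^ (4 * κ) * (N : ℝ) ^ e * (N : ℝ) ^ e ≤ N * ((N : ℝ) ^ θ) ^ 2 := by
      have h41 : (N : ℝ) * ((N : ℝ) ^ θ) ^ 2 = (N : ℝ) ^ (1 + 2 * θ) := by
        rw [Real.rpow_add hN0, Real.rpow_one, ← Real.rpow_natCast ((N : ℝ) ^ θ), ← Real.rpow_mul hN0.le]
        congr 2
        push_cast
        ring
      rw [h41, ← Real.rpow_add hN0, ← Real.rpow_add hN0]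
      apply Real.rpow_le_rpow_of_exponent_le hN1r
      linarith
    have h5 : 0 < (N : ℝ) ^ (4 * κ) * (N : ℝ) ^ e := by positivity
    have h44 : (4 : ℝ) ≤ (N : ℝ) ^ e := by
      have h45 : (N : ℝ) ^ (e / 2) * (N : ℝ) ^ (e / 2) = (N : ℝ) ^ e := by
        rw [← Real.rpow_add hN0]
        congr 1
        ring
      nlinarith
    have h6 : (N : ℝ) ^ (4 * κ) * (N : ℝ) ^ e * 4 ≤ N * ((N : ℝ) ^ θ) ^ 2 :=
      (mul_le_mul_of_nonneg_left h44 h5.le).trans h4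
    have h7 : ((N : ℝ) ^ θ / 2) ^ 2 ≤ (H : ℝ) ^ 2 := pow_le_pow_left₀ (by positivity) hHhalf 2
    have h8 : (N : ℝ) * ((N : ℝ) ^ θ / 2) ^ 2 ≤ N * (H : ℝ) ^ 2 := mul_le_mul_of_nonneg_left h7 hN0.le
    have h9 : (N : ℝ) * ((N : ℝ) ^ θ / 2) ^ 2 * 4 = N * ((N : ℝ) ^ θ) ^ 2 := by ring
    linarith
  have hmain := hN1 N a1 H P (fun _ => 1) hc1 hc2 hc3 hc4 (fun _ => by norm_num)
  have hδN : 0 < (N : ℝ) ^ (-δ) := Real.rpow_pos_of_pos hN0 _
  have hsub : badB (fun m => T m * Ph P m) N H ((H : ℝ) / Real.log N ^ A) ⊆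
      Pool.Agent.H56.TI.badT P (fun _ => 1) N H δ := by
    intro i hi
    unfold badB at hi
    simp only [Finset.mem_filter, Finset.mem_Icc] at hi
    obtain ⟨⟨hi1, hi2⟩, α, hα⟩ := hi
    have hi0 : 1 ≤ i := by
      refine le_trans ?_ hi1
      rw [Nat.le_div_iff_mul_le (by omega)]
      have h2 : 2 ≤ H := by
        have : (2 : ℝ) ≤ H := by
          have h3 : (2 : ℝ) ≤ (N : ℝ) ^ (1 / 10 : ℝ) := by
            have h4 : (N : ℝ) ^ (1 / 20 : ℝ) ≤ (N : ℝ) ^ (1 / 10 : ℝ) :=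
              Real.rpow_le_rpow_of_exponent_le hN1r (by norm_num)
            linarith
          linarith
        exact_mod_cast this
      nlinarith
    have hi3 : i ≤ 16 * N / H := by
      refine le_trans hi2 (Nat.div_le_div_right ?_)
      omega
    unfold Pool.Agent.H56.TI.badT
    simp only [Finset.mem_filter, Finset.mem_Icc]
    refine ⟨⟨hi0, hi3⟩, ?_⟩
    by_contra hcon
    push Not at hcon
    have h1 := Pool.Agent.H56.TI.ti_S P Q H i (fun _ => 1) g T _ hT.2.1 hT.2.2 hi0 hcon α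
    have h2 : (fun m => T m * Pool.Agent.H56.TI.Phi P (fun _ => 1) m) =
        fun m => T m * Ph P m := by
      funext m
      rw [TIw2_phi]
    rw [h2] at h1
    have h3 : (Q : ℝ) ^ 3 ≤ (N : ℝ) ^ (3 * δ / 8) := by
      have h4 : (Q : ℝ) ≤ (N : ℝ) ^ (δ / 8) :=
        le_trans hQ (Real.rpow_le_rpow_of_exponent_le hN1r (min_le_left _ _))
      have h5 : (Q : ℝ) ^ 3 ≤ ((N : ℝ) ^ (δ / 8)) ^ 3 := pow_le_pow_left₀ (Nat.cast_nonneg Q) h4 3
      have h6 : ((N : ℝ) ^ (δ / 8)) ^ 3 = (N : ℝ) ^ (3 * δ / 8) := by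
        rw [← Real.rpow_natCast, ← Real.rpow_mul hN0.le]
        congr 1
        push_cast
        ring
      rw [← h6]
      exact h5
    have h7 : (Q : ℝ) ^ 3 * ((H : ℝ) * (N : ℝ) ^ (-δ)) ≤ H * (N : ℝ) ^ (-(5 * δ / 8)) := by
      have h8 : (Q : ℝ) ^ 3 * ((H : ℝ) * (N : ℝ) ^ (-δ)) ≤
          (N : ℝ) ^ (3 * δ / 8) * ((H : ℝ) * (N : ℝ) ^ (-δ)) :=
        mul_le_mul_of_nonneg_right h3 (by positivity)
      have h9 : (N : ℝ) ^ (3 * δ / 8) * ((H : ℝ) * (N : ℝ) ^ (-δ)) =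
          H * (N : ℝ) ^ (-(5 * δ / 8)) := by
        have h10 : (N : ℝ) ^ (-(5 * δ / 8)) = (N : ℝ) ^ (3 * δ / 8) * (N : ℝ) ^ (-δ) := by
          rw [← Real.rpow_add hN0]
          congr 1
          ring
        rw [h10]
        ring
      linarith
    have h11 : (H : ℝ) * (N : ℝ) ^ (-(5 * δ / 8)) ≤ H / Real.log N ^ A := by
      rw [Real.rpow_neg hN0.le, div_eq_mul_inv]
      apply mul_le_mul_of_nonneg_left _ hH0r.le
      exact inv_anti₀ hLA hlog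
    linarith
  have hcard : ((badB (fun m => T m * Ph P m) N H ((H : ℝ) / Real.log N ^ A)).card : ℝ) ≤
      ((Pool.Agent.H56.TI.badT P (fun _ => 1) N H δ).card : ℝ) := by
    exact_mod_cast Finset.card_le_card hsub
  have hfin : (N : ℝ) ^ (1 - δ) / H ≤ (N / H : ℝ) / Real.log N ^ A := by
    rw [div_div, div_le_div_iff₀ hH0r (by positivity)]
    have h1 : (N : ℝ) ^ (1 - δ) * (N : ℝ) ^ (5 * δ / 8) ≤ N := by
      rw [← Real.rpow_add hN0]
      have h2 : (N : ℝ) ^ (1 - δ + 5 * δ / 8) ≤ (N : ℝ) ^ (1 : ℝ) := by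
        apply Real.rpow_le_rpow_of_exponent_le hN1r
        linarith
      rwa [Real.rpow_one] at h2
    have h3 : (N : ℝ) ^ (1 - δ) * Real.log N ^ A ≤ N := by
      refine le_trans (mul_le_mul_of_nonneg_left hlog (Real.rpow_nonneg hN0.le _)) h1
    calc (N : ℝ) ^ (1 - δ) * (H * Real.log N ^ A) = ((N : ℝ) ^ (1 - δ) * Real.log N ^ A) * H := by
          ring
      _ ≤ N * H := mul_le_mul_of_nonneg_right h3 hH0r.le
  exact le_trans hcard (le_trans hmain hfin)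

end Pool.Agent.H91.TQ
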