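import Pool.Agent.H56.TI2.Defs

/-!
# TI2 Pla: the lattice points lie in a plane, pigeonhole

Let `u ∈ Du G ρ p`, `ξ1 = (x1+x2-x3-x4) - round`, `ξ2 = (x2-x3) - round`, `ξ3 = (x2-x4) - round`: `|ξ1| ≤ ρ`, `|ξ2|, |ξ3| ≤ G`.  For `v = (n,h,k) ∈ Lam`: `ξ1 n + ξ2 h + ξ3 k = x1 n + x2 (n+h+k) - x3 (n+h) - x4 (n+k) - integer` is an
integer of absolute value `< ρA + 2GB ≤ 3/8`, so it is 0.  `ξ2 ≠ 0`, as `p2 ≠ p3` and `0 < u2 < p2` (see `fr_ne` of `TI/Spc.lean`).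
Let `M = max(|ξ1| A, |ξ2| B, |ξ3| B) > 0`.  CASE `M = |ξ3| B`: the cell of `v` is `(⌊(n+A)m/(2A)⌋, ⌊(h+B)m/(2B)⌋) ∈ [0,m)²`.  If `v, v'` have the same cell, `w = v - v' = (a,b,c)`: `m|a| < 2A`, `m|b| < 2B`, `|ξ3||c| = |ξ1 a + ξ2 b|`, so
`|c|/B ≤ |a|/A + |b|/B < 4/m`: `m|c| < 4B`.  The cases `M = |ξ2| B` (cell by `(n,k)`) and `M = |ξ1| A` (cell by `(h,k)`; `m|a| < 4A`) are the same.  As `m ≥ 4`, `|a| < A`, `|b|, |c| < B`, so `w ∈ Lam` (the divisibilities are linear), and `w = 0` or `w ∈ LamS`.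
Pairs `(v, v')` in the same cell: at least `L²/m²` (Cauchy-Schwarz over the `m²` cells), `L = #Lam`; at most `L (1 + #LamS)` (for each difference `w`, `v` determines `v'`).  So `L ≤ m² (1 + #LamS)`, and `2m² ≤ L` gives `L ≤ 2m² #LamS`.
-/

set_option autoImplicit false

namespace Pool.Agent.H56.TI2

open Finset
open Pool.Agent.H56.TI
open Pool.Agent.H35.W (pb)
open Pool.Agent.H53.MID (Bs nz)

/-- the cell of an integer -/
private def Pla_cell (A m : ℕ) (x : ℤ) : ℤ := (x + A) * m / (2 * A)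

private theorem Pla_cell_mem {A m : ℕ} (hA : 1 ≤ A) (hm : 1 ≤ m) {x : ℤ} (h1 : -(A : ℤ) < x) (h2 : x < A) :
    Pla_cell A m x ∈ Ico (0 : ℤ) m := by
  have hA' : (0 : ℤ) < A := by exact_mod_cast hA
  have hm' : (0 : ℤ) < m := by exact_mod_cast hm
  unfold Pla_cell
  rw [mem_Ico]
  constructor
  · apply Int.ediv_nonneg
    · apply mul_nonneg <;> linarith
    · linarith
  · apply Int.ediv_lt_of_lt_mul (by linarith)
    have : (x + A) * m < (2 * A) * m := mul_lt_mul_of_pos_right (by linarith) hm'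
    linarith

private theorem Pla_cell_eq {A m : ℕ} (hA : 1 ≤ A) {x y : ℤ} (h : Pla_cell A m x = Pla_cell A m y) :
    |x - y| * m < 2 * A := by
  have hA' : (0 : ℤ) < A := by exact_mod_cast hA
  have hc : (0 : ℤ) < 2 * A := by linarith
  unfold Pla_cell at h
  have e1 := Int.mul_ediv_add_emod ((x + A) * m) (2 * A)
  have e2 := Int.mul_ediv_add_emod ((y + A) * m) (2 * A)
  rw [h] at e1
  have r1 := Int.emod_nonneg ((x + A) * m) hc.ne'
  have r2 := Int.emod_lt_of_pos ((x + A) * m) hc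
  have r3 := Int.emod_nonneg ((y + A) * m) hc.ne'
  have r4 := Int.emod_lt_of_pos ((y + A) * m) hc
  have e3 : |x - y| * m = |(x - y) * m| := by
    rw [abs_mul, Nat.abs_cast]
  rw [e3, abs_lt]
  constructor <;> nlinarith

private theorem Pla_third {α β γ : ℝ} {a b c : ℤ} {m A B C : ℕ} (he : α * a + β * b + γ * c = 0)
    (h1 : |α| * A ≤ |γ| * C) (h2 : |β| * B ≤ |γ| * C) (h0 : 0 < |γ| * C) (ha : |a| * m < 2 * A)
    (hb : |b| * m < 2 * B) : |c| * m < 4 * C := by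
  by_contra hcon
  push Not at hcon
  have hc' : (4 : ℝ) * C ≤ |(c : ℝ)| * m := by exact_mod_cast hcon
  have ha' : |(a : ℝ)| * m ≤ 2 * A - 1 := by
    have h : |a| * m + 1 ≤ 2 * A := ha
    have h' : |(a : ℝ)| * m + 1 ≤ 2 * A := by exact_mod_cast h
    linarith
  have hb' : |(b : ℝ)| * m ≤ 2 * B - 1 := by
    have h : |b| * m + 1 ≤ 2 * B := hb
    have h' : |(b : ℝ)| * m + 1 ≤ 2 * B := by exact_mod_cast h
    linarith
  have h3 : |γ| * |(c : ℝ)| ≤ |α| * |(a : ℝ)| + |β| * |(b : ℝ)| := by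
    have e : γ * c = -(α * a + β * b) := by linarith
    rw [← abs_mul, e, abs_neg, ← abs_mul α, ← abs_mul β]
    exact abs_add_le _ _
  have hα := abs_nonneg α
  have hβ := abs_nonneg β
  have hγ := abs_nonneg γ
  have hm : (0 : ℝ) ≤ m := Nat.cast_nonneg m
  have h4 : |γ| * (|(c : ℝ)| * m) ≤ |α| * (|(a : ℝ)| * m) + |β| * (|(b : ℝ)| * m) := by
    have := mul_le_mul_of_nonneg_right h3 hm
    nlinarith
  have h5 : |α| * (|(a : ℝ)| * m) ≤ |α| * (2 * A - 1) := mul_le_mul_of_nonneg_left ha' hα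
  have h6 : |β| * (|(b : ℝ)| * m) ≤ |β| * (2 * B - 1) := mul_le_mul_of_nonneg_left hb' hβ
  have h7 : |γ| * (4 * C) ≤ |γ| * (|(c : ℝ)| * m) := mul_le_mul_of_nonneg_left hc' hγ
  have h8 : |α| + |β| ≤ 0 := by nlinarith
  have h9 : |α| = 0 := by linarith
  have h10 : |β| = 0 := by linarith
  rw [h9, h10] at h4
  nlinarith

private theorem Pla_isL {p : (ℕ × ℕ) × (ℕ × ℕ)} {v v' : ℤ × ℤ × ℤ} (h : IsL p v) (h' : IsL p v') :
    IsL p (v - v') := by
  obtain ⟨h1, h2, h3, h4⟩ := h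
  obtain ⟨h1', h2', h3', h4'⟩ := h'
  refine ⟨?_, ?_, ?_, ?_⟩
  · have := dvd_sub h1 h1'
    simpa using this
  · have := dvd_sub h2 h2'
    have e : (v - v').1 + (v - v').2.1 + (v - v').2.2 = v.1 + v.2.1 + v.2.2 - (v'.1 + v'.2.1 + v'.2.2) := by
      simp only [Prod.fst_sub, Prod.snd_sub]
      ring
    rw [e]
    exact this
  · have := dvd_sub h3 h3'
    have e : (v - v').1 + (v - v').2.1 = v.1 + v.2.1 - (v'.1 + v'.2.1) := by
      simp only [Prod.fst_sub, Prod.snd_sub]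
      ring
    rw [e]
    exact this
  · have := dvd_sub h4 h4'
    have e : (v - v').1 + (v - v').2.2 = v.1 + v.2.2 - (v'.1 + v'.2.2) := by
      simp only [Prod.fst_sub, Prod.snd_sub]
      ring
    rw [e]
    exact this

private theorem Pla_small {A m : ℕ} {x : ℤ} (hm : 4 ≤ m) (h : |x| * m < 4 * A) : x ∈ Ioo (-(A : ℤ)) A := by
  have hm' : (4 : ℤ) ≤ m := by exact_mod_cast hm
  have h1 : |x| * 4 ≤ |x| * m := mul_le_mul_of_nonneg_left hm' (abs_nonneg x)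
  have h2 : |x| < A := by linarith
  rw [mem_Ioo]
  exact abs_lt.1 h2

/-- counting with a cell function -/
private theorem Pla_count (A B m : ℕ) (p : (ℕ × ℕ) × (ℕ × ℕ)) (hm : 4 ≤ m)
    (hL : 2 * m ^ 2 ≤ (Lam A B p).card) (f : ℤ × ℤ × ℤ → ℤ × ℤ)
    (hf : ∀ v ∈ Lam A B p, f v ∈ Ico (0 : ℤ) m ×ˢ Ico (0 : ℤ) m)
    (hs : ∀ v ∈ Lam A B p, ∀ v' ∈ Lam A B p, f v = f v' →
      |v.1 - v'.1| * m < 4 * A ∧ |v.2.1 - v'.2.1| * m < 4 * B ∧ |v.2.2 - v'.2.2| * m < 4 * B) :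
    (Lam A B p).card ≤ 2 * m ^ 2 * (LamS A B m p).card := by
  have h1 : (Lam A B p).card ≤ ((LamS A B m p).card + 1) * (Ico (0 : ℤ) m ×ˢ Ico (0 : ℤ) m).card := by
    refine Finset.card_le_mul_card_image_of_maps_to hf _ fun c _ => ?_
    rcases Finset.eq_empty_or_nonempty ((Lam A B p).filter (fun v => f v = c)) with he | ⟨v0, hv0⟩
    · rw [he]
      simp
    · rw [mem_filter] at hv0
      have h2 : ((Lam A B p).filter (fun v => f v = c)).card ≤ (insert 0 (LamS A B m p)).card := by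
        refine Finset.card_le_card_of_injOn (fun v => v - v0) ?_ ?_
        · intro v hv
          have hv1 : v ∈ Lam A B p ∧ f v = c := by
            simpa using hv
          obtain ⟨hvL, hvc⟩ := hv1
          obtain ⟨k1, k2, k3⟩ := hs v hvL v0 hv0.1 (hvc.trans hv0.2.symm)
          have hI : IsL p (v - v0) := Pla_isL (mem_filter.1 hvL).2 (mem_filter.1 hv0.1).2
          have hB : v - v0 ∈ Box A B := by
            unfold Box
            rw [mem_product, mem_product]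
            exact ⟨Pla_small hm k1, Pla_small hm k2, Pla_small hm k3⟩
          by_cases hz : v - v0 = 0
          · simp [hz]
          · have hmem : v - v0 ∈ LamS A B m p := by
              unfold LamS Lam
              rw [mem_filter, mem_filter]
              exact ⟨⟨hB, hI⟩, hz, k1.le, k2.le, k3.le⟩
            simp only [Finset.coe_insert, Set.mem_insert_iff, Finset.mem_coe]
            exact Or.inr hmem
        · intro a _ b _ hab
          exact sub_left_injective hab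
      exact h2.trans (Finset.card_insert_le _ _)
  rw [Finset.card_product, Int.card_Ico] at h1
  have e : ((m : ℤ) - 0).toNat = m := by simp
  rw [e] at h1
  nlinarith

theorem plane (P A B m : ℕ) (G ρ : ℝ) (p : (ℕ × ℕ) × (ℕ × ℕ)) (hp : p ∈ QP P) (hd : Dis p) (hA : 1 ≤ A) (hB : 1 ≤ B)
    (hρ : 8 * A * ρ ≤ 1) (hG : 8 * B * G ≤ 1) (hm : 4 ≤ m) (hn : (Du G ρ p).Nonempty)
    (hL : 2 * m ^ 2 ≤ (Lam A B p).card) :
    (Lam A B p).card ≤ 2 * m ^ 2 * (LamS A B m p).card := by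
  obtain ⟨⟨⟨u1, u2⟩, ⟨u3, u4⟩⟩, hu⟩ := hn
  obtain ⟨⟨p1, p2⟩, ⟨p3, p4⟩⟩ := p
  simp only [QP, pb, mem_product, mem_filter, mem_Ioc] at hp
  obtain ⟨⟨⟨_, hp1⟩, ⟨_, hp2⟩⟩, ⟨⟨_, hp3⟩, ⟨_, hp4⟩⟩⟩ := hp
  simp only [Dis] at hd
  obtain ⟨_, _, _, h23, _, _⟩ := hd
  simp only [Du, mem_filter, mem_product, mem_Ico] at hu
  obtain ⟨⟨⟨⟨_, _⟩, ⟨hu2, hu2'⟩⟩, ⟨⟨_, _⟩, ⟨_, _⟩⟩⟩, hz1, hz2, hz3⟩ := hu
  have q1 : (p1 : ℝ) ≠ 0 := by exact_mod_cast hp1.ne_zero
  have q2 : (p2 : ℝ) ≠ 0 := by exact_mod_cast hp2.ne_zero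
  have q3 : (p3 : ℝ) ≠ 0 := by exact_mod_cast hp3.ne_zero
  have q4 : (p4 : ℝ) ≠ 0 := by exact_mod_cast hp4.ne_zero
  set t1 : ℝ := (u1 : ℝ) / p1 + (u2 : ℝ) / p2 - (u3 : ℝ) / p3 - (u4 : ℝ) / p4 with ht1
  set t2 : ℝ := (u2 : ℝ) / p2 - (u3 : ℝ) / p3 with ht2
  set t3 : ℝ := (u2 : ℝ) / p2 - (u4 : ℝ) / p4 with ht3
  set ξ1 : ℝ := t1 - round t1 with hξ1
  set ξ2 : ℝ := t2 - round t2 with hξ2
  set ξ3 : ℝ := t3 - round t3 with hξ3
  have b1 : |ξ1| ≤ ρ := hz1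
  have b2 : |ξ2| ≤ G := hz2
  have b3 : |ξ3| ≤ G := hz3
  have hA' : (1 : ℝ) ≤ A := by exact_mod_cast hA
  have hB' : (1 : ℝ) ≤ B := by exact_mod_cast hB
  -- the coefficient ξ2 is not zero
  have hne : ξ2 ≠ 0 := by
    intro h0
    have h1 : t2 = ((round t2 : ℤ) : ℝ) := by
      rw [hξ2] at h0
      linarith
    have h2 : (u2 : ℝ) * p3 = ((round t2 : ℤ) : ℝ) * p2 * p3 + u3 * p2 := by
      rw [← h1, ht2]
      field_simp
      ring
    have h3 : (u2 : ℤ) * p3 = round t2 * p2 * p3 + u3 * p2 := by exact_mod_cast h2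
    have h4 : (p2 : ℤ) ∣ (u2 : ℤ) * p3 := by
      rw [h3]
      exact ⟨round t2 * p3 + u3, by ring⟩
    have h5 : p2 ∣ u2 * p3 := by exact_mod_cast h4
    rcases (Nat.Prime.dvd_mul hp2).1 h5 with h6 | h6
    · exact absurd (Nat.le_of_dvd (by omega) h6) (by omega)
    · exact h23 ((Nat.prime_dvd_prime_iff_eq hp2 hp3).1 h6)
  -- the plane
  have hpl : ∀ v ∈ Lam A B ((p1, p2), (p3, p4)), ξ1 * v.1 + ξ2 * v.2.1 + ξ3 * v.2.2 = 0 := by
    rintro ⟨n, h, k⟩ hv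
    obtain ⟨hvb, ⟨y1, e1⟩, ⟨y2, e2⟩, ⟨y3, e3⟩, ⟨y4, e4⟩⟩ := mem_filter.1 hv
    unfold Box at hvb
    rw [mem_product, mem_product, mem_Ioo, mem_Ioo, mem_Ioo] at hvb
    obtain ⟨⟨n1, n2⟩, ⟨h1, h2⟩, ⟨k1, k2⟩⟩ := hvb
    dsimp only at n1 n2 h1 h2 k1 k2 e1 e2 e3 e4
    have e1' : (n : ℝ) = p1 * y1 := by exact_mod_cast e1
    have e2' : (n : ℝ) + h + k = p2 * y2 := by exact_mod_cast e2
    have e3' : (n : ℝ) + h = p3 * y3 := by exact_mod_cast e3
    have e4' : (n : ℝ) + k = p4 * y4 := by exact_mod_cast e4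
    have f1 : (u1 : ℝ) / p1 * n = u1 * y1 := by rw [e1']; field_simp
    have f2 : (u2 : ℝ) / p2 * (n + h + k) = u2 * y2 := by rw [e2']; field_simp
    have f3 : (u3 : ℝ) / p3 * (n + h) = u3 * y3 := by rw [e3']; field_simp
    have f4 : (u4 : ℝ) / p4 * (n + k) = u4 * y4 := by rw [e4']; field_simp
    have g : t1 * n + t2 * h + t3 * k = u1 * y1 + u2 * y2 - u3 * y3 - u4 * y4 := by
      rw [← f1, ← f2, ← f3, ← f4, ht1, ht2, ht3]
      ring
    have g2 : ξ1 * n + ξ2 * h + ξ3 * k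
        = ((u1 * y1 + u2 * y2 - u3 * y3 - u4 * y4 - round t1 * n - round t2 * h - round t3 * k : ℤ) : ℝ) := by
      push_cast
      rw [← g, hξ1, hξ2, hξ3]
      ring
    have m1 : |(n : ℝ)| ≤ A := by
      have : |n| ≤ A := abs_le.2 ⟨by linarith, by linarith⟩
      exact_mod_cast this
    have m2 : |(h : ℝ)| ≤ B := by
      have : |h| ≤ B := abs_le.2 ⟨by linarith, by linarith⟩
      exact_mod_cast this
    have m3 : |(k : ℝ)| ≤ B := by
      have : |k| ≤ B := abs_le.2 ⟨by linarith, by linarith⟩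
      exact_mod_cast this
    have s1 : |ξ1 * n| ≤ ρ * A := by
      rw [abs_mul]
      exact mul_le_mul b1 m1 (abs_nonneg _) ((abs_nonneg _).trans b1)
    have s2 : |ξ2 * h| ≤ G * B := by
      rw [abs_mul]
      exact mul_le_mul b2 m2 (abs_nonneg _) ((abs_nonneg _).trans b2)
    have s3 : |ξ3 * k| ≤ G * B := by
      rw [abs_mul]
      exact mul_le_mul b3 m3 (abs_nonneg _) ((abs_nonneg _).trans b3)
    have s4 : |ξ1 * n + ξ2 * h + ξ3 * k| < 1 := by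
      have := abs_add_le (ξ1 * n + ξ2 * h) (ξ3 * k)
      have := abs_add_le (ξ1 * n) (ξ2 * h)
      nlinarith
    show ξ1 * ((n : ℤ) : ℝ) + ξ2 * ((h : ℤ) : ℝ) + ξ3 * ((k : ℤ) : ℝ) = 0
    rw [g2] at s4 ⊢
    have s5 : |(u1 * y1 + u2 * y2 - u3 * y3 - u4 * y4 - round t1 * n - round t2 * h - round t3 * k : ℤ)| < 1 := by
      exact_mod_cast s4
    have s6 := Int.abs_lt_one_iff.1 s5
    rw [s6]
    simp
  -- the plane for differences
  have hpd : ∀ v ∈ Lam A B ((p1, p2), (p3, p4)), ∀ v' ∈ Lam A B ((p1, p2), (p3, p4)),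
      ξ1 * ((v.1 - v'.1 : ℤ) : ℝ) + ξ2 * ((v.2.1 - v'.2.1 : ℤ) : ℝ) + ξ3 * ((v.2.2 - v'.2.2 : ℤ) : ℝ) = 0 := by
    intro v hv v' hv'
    have h1 := hpl v hv
    have h2 := hpl v' hv'
    push_cast
    linarith
  have hpos2 : 0 < |ξ2| * B := mul_pos (abs_pos.2 hne) (by linarith)
  have hbox : ∀ v ∈ Lam A B ((p1, p2), (p3, p4)), (-(A : ℤ) < v.1 ∧ v.1 < A) ∧ (-(B : ℤ) < v.2.1 ∧ v.2.1 < B)
      ∧ (-(B : ℤ) < v.2.2 ∧ v.2.2 < B) := by
    intro v hv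
    have := (mem_filter.1 hv).1
    unfold Box at this
    rw [mem_product, mem_product, mem_Ioo, mem_Ioo, mem_Ioo] at this
    exact this
  have hm1 : 1 ≤ m := by omega
  have up : ∀ (C : ℕ) (x : ℤ), |x| * m < 2 * C → |x| * m < 4 * C := by
    intro C x h
    have : (0 : ℤ) ≤ C := Int.natCast_nonneg C
    linarith
  by_cases c1 : |ξ1| * A ≤ |ξ3| * B ∧ |ξ2| * B ≤ |ξ3| * B
  · refine Pla_count A B m _ hm hL (fun v => (Pla_cell A m v.1, Pla_cell B m v.2.1)) ?_ ?_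
    · intro v hv
      obtain ⟨k1, k2, _⟩ := hbox v hv
      rw [mem_product]
      exact ⟨Pla_cell_mem hA hm1 k1.1 k1.2, Pla_cell_mem hB hm1 k2.1 k2.2⟩
    · intro v hv v' hv' hf
      have g1 := Pla_cell_eq hA (congrArg Prod.fst hf)
      have g2 := Pla_cell_eq hB (congrArg Prod.snd hf)
      have he := hpd v hv v' hv'
      exact ⟨up _ _ g1, up _ _ g2, Pla_third he c1.1 c1.2 (lt_of_lt_of_le hpos2 c1.2) g1 g2⟩
  · by_cases c2 : |ξ1| * A ≤ |ξ2| * B ∧ |ξ3| * B ≤ |ξ2| * B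
    · refine Pla_count A B m _ hm hL (fun v => (Pla_cell A m v.1, Pla_cell B m v.2.2)) ?_ ?_
      · intro v hv
        obtain ⟨k1, _, k3⟩ := hbox v hv
        rw [mem_product]
        exact ⟨Pla_cell_mem hA hm1 k1.1 k1.2, Pla_cell_mem hB hm1 k3.1 k3.2⟩
      · intro v hv v' hv' hf
        have g1 := Pla_cell_eq hA (congrArg Prod.fst hf)
        have g2 := Pla_cell_eq hB (congrArg Prod.snd hf)
        have he := hpd v hv v' hv'
        have he' : ξ1 * ((v.1 - v'.1 : ℤ) : ℝ) + ξ3 * ((v.2.2 - v'.2.2 : ℤ) : ℝ)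
            + ξ2 * ((v.2.1 - v'.2.1 : ℤ) : ℝ) = 0 := by linarith
        exact ⟨up _ _ g1, Pla_third he' c2.1 c2.2 hpos2 g1 g2, up _ _ g2⟩
    · have c3 : |ξ2| * B ≤ |ξ1| * A ∧ |ξ3| * B ≤ |ξ1| * A := by
        rw [not_and_or, not_le, not_le] at c1 c2
        constructor
        · rcases c1 with c1 | c1 <;> rcases c2 with c2 | c2 <;> linarith
        · rcases c1 with c1 | c1 <;> rcases c2 with c2 | c2 <;> linarith
      refine Pla_count A B m _ hm hL (fun v => (Pla_cell B m v.2.1, Pla_cell B m v.2.2)) ?_ ?_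
      · intro v hv
        obtain ⟨_, k2, k3⟩ := hbox v hv
        rw [mem_product]
        exact ⟨Pla_cell_mem hB hm1 k2.1 k2.2, Pla_cell_mem hB hm1 k3.1 k3.2⟩
      · intro v hv v' hv' hf
        have g1 := Pla_cell_eq hB (congrArg Prod.fst hf)
        have g2 := Pla_cell_eq hB (congrArg Prod.snd hf)
        have he := hpd v hv v' hv'
        have he' : ξ2 * ((v.2.1 - v'.2.1 : ℤ) : ℝ) + ξ3 * ((v.2.2 - v'.2.2 : ℤ) : ℝ)
            + ξ1 * ((v.1 - v'.1 : ℤ) : ℝ) = 0 := by linarith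
        exact ⟨Pla_third he' c3.1 c3.2 (lt_of_lt_of_le hpos2 c3.1) g1 g2, up _ _ g1, up _ _ g2⟩

end Pool.Agent.H56.TI2
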