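import Pool.Agent.H56.TI2.Defs

/-!
# TI2 Tri: sums over the quadruples of primes of the numbers of lattice points

Let `2B ≤ P`, `v = (n,h,k) ∈ Box A B`, `p ∈ QP P`, `IsL p v`, `v ≠ 0`.  Then the four forms `n`, `n+h+k`, `n+h`, `n+k` are all nonzero: `|h|, |k| < B < P`; `n = 0` gives `p3 ∣ h`, `p4 ∣ k`, so `h = k = 0`;
`n + h = 0`: `p1 ∣ n = -h`, so `h = n = 0`, `p4 ∣ k`, `k = 0`; `n + k = 0` the same; `n + h + k = 0`: `p3 ∣ n + h = -k`, `p4 ∣ n + k = -h`, so `h = k = n = 0`.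
Their absolute values are `< A + 2B ≤ P^(k+1)`, so at most `k` primes of `pb P` divide each (product of the primes; as `Cnt_pr`/`card_dvd` of `TI`): `lam_pt`: at most `k⁴` quadruples `p` for each `v ≠ 0`.
* `lam_all`: exchange the sums; `v = 0`: at most `P⁴` quadruples; `v ≠ 0`: at most `(2A)(2B)²` points, `k⁴` quadruples each.
* `lam_coin`: for each of the six pairs `i < j`, `p_i = p_j` implies `p_i ∣ ℓ_i - ℓ_j`, which is one of `-(h+k), -h, -k, k, h, h-k`, absolute value `< 2B ≤ P`, so it is 0: at most `(2A)(2B)` points; `v = 0`: `P³` quadruples with `p_i = p_j`.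
* `lam_small`: distinct primes; `v ∈ LamS`: if `h = k = 0` then `p1 p2 p3 p4 ∣ n` (distinct primes), `n ≠ 0`, `|n| < A ≤ P⁴`: impossible; so `m ≤ 4B`; and `n ≠ 0`, so `m ≤ 4A`.  So the number of the possible `v` is at most
  `(2·4A/m + 1)(2·4B/m + 1)² ≤ (12A/m)(12B/m)²` (or 0), `k⁴` quadruples each.
-/

set_option autoImplicit false

namespace Pool.Agent.H56.TI2

open Finset
open Pool.Agent.H56.TI
open Pool.Agent.H35.W (pb)

private theorem Tri_pb {P p : ℕ} (hp : p ∈ pb P) : P < p ∧ p ≤ 2 * P ∧ p.Prime := by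
  unfold pb at hp
  rw [mem_filter, mem_Ioc] at hp
  exact ⟨hp.1.1, hp.1.2, hp.2⟩

private theorem Tri_card (P : ℕ) : (pb P).card ≤ P := by
  unfold pb
  refine (card_filter_le _ _).trans ?_
  rw [Nat.card_Ioc]
  omega

private theorem Tri_qp {P : ℕ} {p : (ℕ × ℕ) × (ℕ × ℕ)} (hp : p ∈ QP P) :
    p.1.1 ∈ pb P ∧ p.1.2 ∈ pb P ∧ p.2.1 ∈ pb P ∧ p.2.2 ∈ pb P := by
  unfold QP at hp
  rw [mem_product, mem_product, mem_product] at hp
  exact ⟨hp.1.1, hp.1.2, hp.2.1, hp.2.2⟩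

private theorem Tri_box {A B : ℕ} {v : ℤ × ℤ × ℤ} (hv : v ∈ Box A B) :
    (-(A : ℤ) < v.1 ∧ v.1 < A) ∧ (-(B : ℤ) < v.2.1 ∧ v.2.1 < B) ∧ (-(B : ℤ) < v.2.2 ∧ v.2.2 < B) := by
  unfold Box at hv
  rw [mem_product, mem_product, mem_Ioo, mem_Ioo, mem_Ioo] at hv
  exact hv

/-- a small multiple is zero -/
private theorem Tri_zero {P p : ℕ} {t : ℤ} (hp : P < p) (h : (p : ℤ) ∣ t) (h1 : -(P : ℤ) < t) (h2 : t < P) : t = 0 := by
  refine Int.eq_zero_of_abs_lt_dvd h ?_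
  rw [abs_lt]
  constructor <;> omega

/-- the forms are nonzero -/
private theorem Tri_forms (P A B : ℕ) (hB : 2 * B ≤ P) (v : ℤ × ℤ × ℤ) (hv : v ∈ Box A B) (h0 : v ≠ 0)
    (p : (ℕ × ℕ) × (ℕ × ℕ)) (hp : p ∈ QP P) (hl : IsL p v) :
    v.1 ≠ 0 ∧ v.1 + v.2.1 + v.2.2 ≠ 0 ∧ v.1 + v.2.1 ≠ 0 ∧ v.1 + v.2.2 ≠ 0 := by
  obtain ⟨p1, p2, p3, p4⟩ := Tri_qp hp
  obtain ⟨b1, b2, b3⟩ := Tri_box hv
  obtain ⟨l1, l2, l3, l4⟩ := hl
  have q1 := (Tri_pb p1).1
  have q2 := (Tri_pb p2).1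
  have q3 := (Tri_pb p3).1
  have q4 := (Tri_pb p4).1
  obtain ⟨n, h, k⟩ := v
  simp only at b1 b2 b3 l1 l2 l3 l4 ⊢
  have key : n = 0 → h = 0 → k = 0 → False := by
    rintro rfl rfl rfl
    exact h0 rfl
  refine ⟨?_, ?_, ?_, ?_⟩
  · intro e
    subst e
    rw [zero_add] at l3 l4
    have e1 := Tri_zero q3 l3 (by omega) (by omega)
    have e2 := Tri_zero q4 l4 (by omega) (by omega)
    exact key rfl e1 e2
  · intro e
    have e3 : n + h = -k := by omega
    have e4 : n + k = -h := by omega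
    rw [e3] at l3
    rw [e4] at l4
    have e1 := Tri_zero q3 l3 (by omega) (by omega)
    have e2 := Tri_zero q4 l4 (by omega) (by omega)
    exact key (by omega) (by omega) (by omega)
  · intro e
    have e3 : n = -h := by omega
    rw [e3] at l1
    have e1 := Tri_zero q1 l1 (by omega) (by omega)
    have e4 : n + k = k := by omega
    rw [e4] at l4
    have e2 := Tri_zero q4 l4 (by omega) (by omega)
    exact key (by omega) (by omega) (by omega)
  · intro e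
    have e3 : n = -k := by omega
    rw [e3] at l1
    have e1 := Tri_zero q1 l1 (by omega) (by omega)
    have e4 : n + h = h := by omega
    rw [e4] at l3
    have e2 := Tri_zero q3 l3 (by omega) (by omega)
    exact key (by omega) (by omega) (by omega)

private theorem Tri_int (P k : ℕ) (t : ℤ) (hP : 2 ≤ P) (h0 : t ≠ 0) (h1 : -(P ^ (k + 1) : ℤ) < t) (h2 : t < (P ^ (k + 1) : ℤ)) :
    ((pb P).filter (fun p : ℕ => (p : ℤ) ∣ t)).card ≤ k := by
  have e : (pb P).filter (fun p : ℕ => (p : ℤ) ∣ t) = (pb P).filter (fun p => p ∣ t.natAbs) := by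
    refine filter_congr fun p _ => ?_
    exact Int.natCast_dvd
  rw [e]
  refine card_dvd P k t.natAbs hP (Int.natAbs_pos.2 h0) ?_
  zify
  rw [abs_lt]
  exact ⟨h1, h2⟩

theorem lam_pt (P A B k : ℕ) (hP : 2 ≤ P) (hB : 2 * B ≤ P) (hk : A + 2 * B ≤ P ^ (k + 1)) (v : ℤ × ℤ × ℤ)
    (hv : v ∈ Box A B) (h0 : v ≠ 0) : ((QP P).filter (fun p => IsL p v)).card ≤ k ^ 4 := by
  rcases ((QP P).filter (fun p => IsL p v)).eq_empty_or_nonempty with he | ⟨p, hp⟩
  · rw [he, card_empty]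
    exact Nat.zero_le _
  rw [mem_filter] at hp
  obtain ⟨f1, f2, f3, f4⟩ := Tri_forms P A B hB v hv h0 p hp.1 hp.2
  obtain ⟨b1, b2, b3⟩ := Tri_box hv
  have hk' : (A : ℤ) + 2 * B ≤ (P ^ (k + 1) : ℤ) := by exact_mod_cast hk
  have c1 := Tri_int P k v.1 hP f1 (by omega) (by omega)
  have c2 := Tri_int P k (v.1 + v.2.1 + v.2.2) hP f2 (by omega) (by omega)
  have c3 := Tri_int P k (v.1 + v.2.1) hP f3 (by omega) (by omega)
  have c4 := Tri_int P k (v.1 + v.2.2) hP f4 (by omega) (by omega)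
  have hsub : (QP P).filter (fun p => IsL p v) ⊆
      ((pb P).filter (fun p : ℕ => (p : ℤ) ∣ v.1) ×ˢ (pb P).filter (fun p : ℕ => (p : ℤ) ∣ v.1 + v.2.1 + v.2.2)) ×ˢ
      ((pb P).filter (fun p : ℕ => (p : ℤ) ∣ v.1 + v.2.1) ×ˢ (pb P).filter (fun p : ℕ => (p : ℤ) ∣ v.1 + v.2.2)) := by
    intro q hq
    rw [mem_filter] at hq
    obtain ⟨q1, q2, q3, q4⟩ := Tri_qp hq.1
    obtain ⟨l1, l2, l3, l4⟩ := hq.2
    rw [mem_product, mem_product, mem_product, mem_filter, mem_filter, mem_filter, mem_filter]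
    exact ⟨⟨⟨q1, l1⟩, ⟨q2, l2⟩⟩, ⟨⟨q3, l3⟩, ⟨q4, l4⟩⟩⟩
  refine (card_le_card hsub).trans ?_
  rw [card_product, card_product, card_product]
  calc _ ≤ (k * k) * (k * k) := Nat.mul_le_mul (Nat.mul_le_mul c1 c2) (Nat.mul_le_mul c3 c4)
    _ = k ^ 4 := by ring

/-- exchange of the sums -/
private theorem Tri_swap (S : Finset ((ℕ × ℕ) × (ℕ × ℕ))) (T : Finset (ℤ × ℤ × ℤ))
    (R : (ℕ × ℕ) × (ℕ × ℕ) → ℤ × ℤ × ℤ → Prop) [∀ p v, Decidable (R p v)] :
    ∑ p ∈ S, ((T.filter (fun v => R p v)).card : ℝ) = ∑ v ∈ T, ((S.filter (fun p => R p v)).card : ℝ) := by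
  have e1 : ∀ p ∈ S, ((T.filter (fun v => R p v)).card : ℝ) = ∑ v ∈ T, if R p v then (1 : ℝ) else 0 := by
    intro p _
    rw [← sum_filter, sum_const, nsmul_eq_mul, mul_one]
  have e2 : ∀ v ∈ T, ((S.filter (fun p => R p v)).card : ℝ) = ∑ p ∈ S, if R p v then (1 : ℝ) else 0 := by
    intro v _
    rw [← sum_filter, sum_const, nsmul_eq_mul, mul_one]
  rw [sum_congr rfl e1, sum_congr rfl e2, sum_comm]

private theorem Tri_ioo (B : ℕ) : (Ioo (-(B : ℤ)) B).card ≤ 2 * B := by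
  rw [Int.card_Ioo]
  omega

private theorem Tri_qpc (P : ℕ) : (QP P).card ≤ P ^ 4 := by
  unfold QP
  rw [card_product, card_product]
  have h := Tri_card P
  calc _ ≤ (P * P) * (P * P) := Nat.mul_le_mul (Nat.mul_le_mul h h) (Nat.mul_le_mul h h)
    _ = P ^ 4 := by ring

private theorem Tri_boxc (A B : ℕ) : (Box A B).card ≤ 8 * A * B ^ 2 := by
  unfold Box
  rw [card_product, card_product]
  calc _ ≤ (2 * A) * ((2 * B) * (2 * B)) := Nat.mul_le_mul (Tri_ioo A) (Nat.mul_le_mul (Tri_ioo B) (Tri_ioo B))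
    _ = 8 * A * B ^ 2 := by ring

/-- the sum over the points, zero separately -/
private theorem Tri_sum (S : Finset ((ℕ × ℕ) × (ℕ × ℕ))) (T U : Finset (ℤ × ℤ × ℤ))
    (R : (ℕ × ℕ) × (ℕ × ℕ) → ℤ × ℤ × ℤ → Prop) [∀ p v, Decidable (R p v)] (a c : ℕ)
    (h0 : S.card ≤ a)
    (h1 : ∀ v ∈ T, v ≠ 0 → (S.filter (fun p => R p v)).card ≤ c)
    (h2 : ∀ v ∈ T, v ≠ 0 → ∀ p ∈ S, R p v → v ∈ U) :
    ∑ v ∈ T, ((S.filter (fun p => R p v)).card : ℝ) ≤ a + U.card * c := by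
  have e : ∀ v ∈ T, ((S.filter (fun p => R p v)).card : ℝ) ≤
      (if v = 0 then (a : ℝ) else 0) + (if v ∈ U then (c : ℝ) else 0) := by
    intro v hv
    by_cases hv0 : v = 0
    · rw [if_pos hv0]
      have h3 : ((S.filter (fun p => R p v)).card : ℝ) ≤ a := by
        exact_mod_cast (card_filter_le _ _).trans h0
      have h4 : (0 : ℝ) ≤ if v ∈ U then (c : ℝ) else 0 := by
        split_ifs
        · exact Nat.cast_nonneg _
        · exact le_refl _
      linarith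
    · rw [if_neg hv0, zero_add]
      rcases (S.filter (fun p => R p v)).eq_empty_or_nonempty with he | ⟨p, hp⟩
      · rw [he, card_empty, Nat.cast_zero]
        split_ifs
        · exact Nat.cast_nonneg _
        · exact le_refl _
      · rw [mem_filter] at hp
        rw [if_pos (h2 v hv hv0 p hp.1 hp.2)]
        exact_mod_cast h1 v hv hv0
  refine (sum_le_sum e).trans ?_
  rw [sum_add_distrib]
  refine add_le_add ?_ ?_
  · rw [← sum_filter, sum_const, nsmul_eq_mul]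
    have h3 : (T.filter (fun v => v = 0)).card ≤ 1 := by
      rw [card_le_one]
      intro x hx y hy
      rw [mem_filter] at hx hy
      rw [hx.2, hy.2]
    have h4 : ((T.filter (fun v => v = 0)).card : ℝ) ≤ 1 := by exact_mod_cast h3
    calc _ ≤ (1 : ℝ) * a := mul_le_mul_of_nonneg_right h4 (Nat.cast_nonneg _)
      _ = a := one_mul _
  · rw [← sum_filter, sum_const, nsmul_eq_mul]
    have h3 : (T.filter (fun v => v ∈ U)).card ≤ U.card := by
      refine card_le_card ?_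
      intro x hx
      rw [mem_filter] at hx
      exact hx.2
    exact mul_le_mul_of_nonneg_right (by exact_mod_cast h3) (Nat.cast_nonneg _)

theorem lam_all (P A B k : ℕ) (hP : 2 ≤ P) (hB : 2 * B ≤ P) (hk : A + 2 * B ≤ P ^ (k + 1)) :
    ∑ p ∈ QP P, ((Lam A B p).card : ℝ) ≤ P ^ 4 + 8 * k ^ 4 * A * B ^ 2 := by
  unfold Lam
  rw [Tri_swap]
  have h := Tri_sum (QP P) (Box A B) (Box A B) IsL (P ^ 4) (k ^ 4) (Tri_qpc P)
    (fun v hv h0 => lam_pt P A B k hP hB hk v hv h0) (fun v hv _ _ _ _ => hv)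
  refine h.trans ?_
  push_cast
  have hb : ((Box A B).card : ℝ) ≤ 8 * A * B ^ 2 := by exact_mod_cast Tri_boxc A B
  have h2 := mul_le_mul_of_nonneg_right hb (by positivity : (0 : ℝ) ≤ (k : ℝ) ^ 4)
  nlinarith [h2]

/-- the quadruples with a coincidence -/
private theorem Tri_coinc (P : ℕ) : ((QP P).filter (fun p => ¬ Dis p)).card ≤ 6 * P ^ 3 := by
  have hc := Tri_card P
  have hT : ((pb P ×ˢ pb P) ×ˢ pb P).card ≤ P ^ 3 := by
    rw [card_product, card_product]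
    calc _ ≤ (P * P) * P := Nat.mul_le_mul (Nat.mul_le_mul hc hc) hc
      _ = P ^ 3 := by ring
  let T := (pb P ×ˢ pb P) ×ˢ pb P
  have hsub : (QP P).filter (fun p => ¬ Dis p) ⊆
      T.image (fun t => ((t.1.1, t.1.1), (t.1.2, t.2))) ∪
      T.image (fun t => ((t.1.1, t.1.2), (t.1.1, t.2))) ∪
      T.image (fun t => ((t.1.1, t.1.2), (t.2, t.1.1))) ∪
      T.image (fun t => ((t.1.1, t.1.2), (t.1.2, t.2))) ∪
      T.image (fun t => ((t.1.1, t.1.2), (t.2, t.1.2))) ∪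
      T.image (fun t => ((t.1.1, t.1.2), (t.2, t.2))) := by
    intro p hp
    rw [mem_filter] at hp
    obtain ⟨q1, q2, q3, q4⟩ := Tri_qp hp.1
    obtain ⟨⟨a, b⟩, ⟨c, d⟩⟩ := p
    simp only at q1 q2 q3 q4
    have hn := hp.2
    unfold Dis at hn
    simp only at hn
    have hmem : ∀ x y z : ℕ, x ∈ pb P → y ∈ pb P → z ∈ pb P → ((x, y), z) ∈ T := by
      intro x y z hx hy hz
      exact mem_product.2 ⟨mem_product.2 ⟨hx, hy⟩, hz⟩
    simp only [mem_union, mem_image]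
    by_cases e1 : a = b
    · subst e1
      exact Or.inl (Or.inl (Or.inl (Or.inl (Or.inl ⟨((a, c), d), hmem _ _ _ q1 q3 q4, rfl⟩))))
    by_cases e2 : a = c
    · subst e2
      exact Or.inl (Or.inl (Or.inl (Or.inl (Or.inr ⟨((a, b), d), hmem _ _ _ q1 q2 q4, rfl⟩))))
    by_cases e3 : a = d
    · subst e3
      exact Or.inl (Or.inl (Or.inl (Or.inr ⟨((a, b), c), hmem _ _ _ q1 q2 q3, rfl⟩)))
    by_cases e4 : b = c
    · subst e4
      exact Or.inl (Or.inl (Or.inr ⟨((a, b), d), hmem _ _ _ q1 q2 q4, rfl⟩))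
    by_cases e5 : b = d
    · subst e5
      exact Or.inl (Or.inr ⟨((a, b), c), hmem _ _ _ q1 q2 q3, rfl⟩)
    by_cases e6 : c = d
    · subst e6
      exact Or.inr ⟨((a, b), c), hmem _ _ _ q1 q2 q3, rfl⟩
    exact absurd ⟨e1, e2, e3, e4, e5, e6⟩ hn
  refine (card_le_card hsub).trans ?_
  refine (card_union_le _ _).trans ?_
  have i1 : (T.image (fun t => ((t.1.1, t.1.1), (t.1.2, t.2)))).card ≤ P ^ 3 := card_image_le.trans hT
  have i2 : (T.image (fun t => ((t.1.1, t.1.2), (t.1.1, t.2)))).card ≤ P ^ 3 := card_image_le.trans hT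
  have i3 : (T.image (fun t => ((t.1.1, t.1.2), (t.2, t.1.1)))).card ≤ P ^ 3 := card_image_le.trans hT
  have i4 : (T.image (fun t => ((t.1.1, t.1.2), (t.1.2, t.2)))).card ≤ P ^ 3 := card_image_le.trans hT
  have i5 : (T.image (fun t => ((t.1.1, t.1.2), (t.2, t.1.2)))).card ≤ P ^ 3 := card_image_le.trans hT
  have i6 : (T.image (fun t => ((t.1.1, t.1.2), (t.2, t.2)))).card ≤ P ^ 3 := card_image_le.trans hT
  have u1 := card_union_le (T.image (fun t => ((t.1.1, t.1.1), (t.1.2, t.2))))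
    (T.image (fun t => ((t.1.1, t.1.2), (t.1.1, t.2))))
  have u2 := card_union_le (T.image (fun t => ((t.1.1, t.1.1), (t.1.2, t.2))) ∪
    T.image (fun t => ((t.1.1, t.1.2), (t.1.1, t.2)))) (T.image (fun t => ((t.1.1, t.1.2), (t.2, t.1.1))))
  have u3 := card_union_le (T.image (fun t => ((t.1.1, t.1.1), (t.1.2, t.2))) ∪
    T.image (fun t => ((t.1.1, t.1.2), (t.1.1, t.2))) ∪ T.image (fun t => ((t.1.1, t.1.2), (t.2, t.1.1))))
    (T.image (fun t => ((t.1.1, t.1.2), (t.1.2, t.2))))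
  have u4 := card_union_le (T.image (fun t => ((t.1.1, t.1.1), (t.1.2, t.2))) ∪
    T.image (fun t => ((t.1.1, t.1.2), (t.1.1, t.2))) ∪ T.image (fun t => ((t.1.1, t.1.2), (t.2, t.1.1))) ∪
    T.image (fun t => ((t.1.1, t.1.2), (t.1.2, t.2)))) (T.image (fun t => ((t.1.1, t.1.2), (t.2, t.1.2))))
  omega

theorem lam_coin (P A B k : ℕ) (hP : 2 ≤ P) (hB : 2 * B ≤ P) (hk : A + 2 * B ≤ P ^ (k + 1)) :
    ∑ p ∈ (QP P).filter (fun p => ¬ Dis p), ((Lam A B p).card : ℝ) ≤ 6 * P ^ 3 + 24 * k ^ 4 * A * B := by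
  classical
  unfold Lam
  rw [Tri_swap]
  -- the four planes
  let V := Ioo (-(A : ℤ)) A ×ˢ Ioo (-(B : ℤ)) B
  let U := V.image (fun t => (t.1, ((0 : ℤ), t.2))) ∪ V.image (fun t => (t.1, (t.2, (0 : ℤ)))) ∪
    V.image (fun t => (t.1, (t.2, -t.2))) ∪ V.image (fun t => (t.1, (t.2, t.2)))
  have hV : V.card ≤ 4 * A * B := by
    rw [card_product]
    calc _ ≤ (2 * A) * (2 * B) := Nat.mul_le_mul (Tri_ioo A) (Tri_ioo B)
      _ = 4 * A * B := by ring
  have hU : U.card ≤ 4 * (4 * A * B) := by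
    have i1 : (V.image (fun t => (t.1, ((0 : ℤ), t.2)))).card ≤ 4 * A * B := card_image_le.trans hV
    have i2 : (V.image (fun t => (t.1, (t.2, (0 : ℤ))))).card ≤ 4 * A * B := card_image_le.trans hV
    have i3 : (V.image (fun t => (t.1, (t.2, -t.2)))).card ≤ 4 * A * B := card_image_le.trans hV
    have i4 : (V.image (fun t => (t.1, (t.2, t.2)))).card ≤ 4 * A * B := card_image_le.trans hV
    have u1 := card_union_le (V.image (fun t => (t.1, ((0 : ℤ), t.2)))) (V.image (fun t => (t.1, (t.2, (0 : ℤ)))))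
    have u2 := card_union_le (V.image (fun t => (t.1, ((0 : ℤ), t.2))) ∪ V.image (fun t => (t.1, (t.2, (0 : ℤ)))))
      (V.image (fun t => (t.1, (t.2, -t.2))))
    have u3 := card_union_le (V.image (fun t => (t.1, ((0 : ℤ), t.2))) ∪ V.image (fun t => (t.1, (t.2, (0 : ℤ)))) ∪
      V.image (fun t => (t.1, (t.2, -t.2)))) (V.image (fun t => (t.1, (t.2, t.2))))
    have e : U = V.image (fun t => (t.1, ((0 : ℤ), t.2))) ∪ V.image (fun t => (t.1, (t.2, (0 : ℤ)))) ∪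
      V.image (fun t => (t.1, (t.2, -t.2))) ∪ V.image (fun t => (t.1, (t.2, t.2))) := rfl
    rw [e]
    omega
  have h := Tri_sum ((QP P).filter (fun p => ¬ Dis p)) (Box A B) U IsL (6 * P ^ 3) (k ^ 4) (Tri_coinc P) ?_ ?_
  · refine h.trans ?_
    push_cast
    have hb : (U.card : ℝ) ≤ 4 * (4 * A * B) := by exact_mod_cast hU
    have h2 := mul_le_mul_of_nonneg_right hb (by positivity : (0 : ℝ) ≤ (k : ℝ) ^ 4)
    have h3 : (0 : ℝ) ≤ (k : ℝ) ^ 4 * A * B := by positivity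
    nlinarith [h2, h3]
  · intro v hv h0
    refine le_trans (card_le_card ?_) (lam_pt P A B k hP hB hk v hv h0)
    intro q hq
    rw [mem_filter, mem_filter] at hq
    rw [mem_filter]
    exact ⟨hq.1.1, hq.2⟩
  · intro v hv _ p hp hl
    rw [mem_filter] at hp
    obtain ⟨q1, q2, q3, q4⟩ := Tri_qp hp.1
    obtain ⟨b1, b2, b3⟩ := Tri_box hv
    obtain ⟨l1, l2, l3, l4⟩ := hl
    have hn := hp.2
    obtain ⟨⟨a, b⟩, ⟨c, d⟩⟩ := p
    obtain ⟨n, h, k⟩ := v
    unfold Dis at hn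
    simp only at hn q1 q2 q3 q4 b1 b2 b3 l1 l2 l3 l4
    have r1 := (Tri_pb q1).1
    have r2 := (Tri_pb q2).1
    have r3 := (Tri_pb q3).1
    have r4 := (Tri_pb q4).1
    have hc : h = 0 ∨ k = 0 ∨ k = -h ∨ k = h := by
      by_cases e1 : a = b
      · subst e1
        have := Tri_zero r1 (dvd_sub l2 l1) (by omega) (by omega)
        omega
      by_cases e2 : a = c
      · subst e2
        have := Tri_zero r1 (dvd_sub l3 l1) (by omega) (by omega)
        omega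
      by_cases e3 : a = d
      · subst e3
        have := Tri_zero r1 (dvd_sub l4 l1) (by omega) (by omega)
        omega
      by_cases e4 : b = c
      · subst e4
        have := Tri_zero r2 (dvd_sub l2 l3) (by omega) (by omega)
        omega
      by_cases e5 : b = d
      · subst e5
        have := Tri_zero r2 (dvd_sub l2 l4) (by omega) (by omega)
        omega
      by_cases e6 : c = d
      · subst e6
        have := Tri_zero r3 (dvd_sub l3 l4) (by omega) (by omega)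
        omega
      exact absurd ⟨e1, e2, e3, e4, e5, e6⟩ hn
    have hm1 : (n, h) ∈ V := mem_product.2 ⟨mem_Ioo.2 b1, mem_Ioo.2 b2⟩
    have hm2 : (n, k) ∈ V := mem_product.2 ⟨mem_Ioo.2 b1, mem_Ioo.2 b3⟩
    have e : U = V.image (fun t => (t.1, ((0 : ℤ), t.2))) ∪ V.image (fun t => (t.1, (t.2, (0 : ℤ)))) ∪
      V.image (fun t => (t.1, (t.2, -t.2))) ∪ V.image (fun t => (t.1, (t.2, t.2))) := rfl
    rw [e]
    simp only [mem_union, mem_image]
    rcases hc with e1 | e1 | e1 | e1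
    · subst e1
      exact Or.inl (Or.inl (Or.inl ⟨(n, k), hm2, rfl⟩))
    · subst e1
      exact Or.inl (Or.inl (Or.inr ⟨(n, h), hm1, rfl⟩))
    · subst e1
      exact Or.inl (Or.inr ⟨(n, h), hm1, rfl⟩)
    · subst e1
      exact Or.inr ⟨(n, k), hm1, rfl⟩

/-- the number of integers `t` with `|t| m ≤ 4 C` -/
private theorem Tri_cnt (C m : ℕ) (hm : 1 ≤ m) (hC : m ≤ 4 * C) (S : Finset ℤ) (hS : ∀ t ∈ S, |t| * m ≤ 4 * C) :
    (S.card : ℝ) ≤ 12 * C / m := by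
  have hsub : S ⊆ Icc (-((4 * C / m : ℕ) : ℤ)) ((4 * C / m : ℕ) : ℤ) := by
    intro t ht
    have h1 := hS t ht
    have h2 : t.natAbs * m ≤ 4 * C := by
      zify
      exact h1
    have h3 : t.natAbs ≤ 4 * C / m := (Nat.le_div_iff_mul_le (by omega)).2 h2
    rw [mem_Icc]
    omega
  have h1 := card_le_card hsub
  rw [Int.card_Icc] at h1
  have h2 : S.card ≤ 2 * (4 * C / m) + 1 := by omega
  have hm0 : (0 : ℝ) < m := by exact_mod_cast (by omega : 0 < m)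
  have h3 : ((4 * C / m : ℕ) : ℝ) ≤ 4 * C / m := by
    have := @Nat.cast_div_le ℝ _ _ _ (4 * C) m
    push_cast at this
    exact this
  have h4 : (1 : ℝ) ≤ 4 * C / m := by
    rw [le_div_iff₀ hm0, one_mul]
    exact_mod_cast hC
  have h5 : (S.card : ℝ) ≤ 2 * ((4 * C / m : ℕ) : ℝ) + 1 := by exact_mod_cast h2
  have h6 : (12 : ℝ) * C / m = 3 * (4 * C / m) := by ring
  rw [h6]
  linarith

theorem lam_small (P A B k m : ℕ) (hP : 2 ≤ P) (hB : 2 * B ≤ P) (hk : A + 2 * B ≤ P ^ (k + 1)) (hA : A ≤ P ^ 4)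
    (hm : 1 ≤ m) :
    ∑ p ∈ (QP P).filter (fun p => Dis p), ((LamS A B m p).card : ℝ) ≤ 1728 * k ^ 4 * A * B ^ 2 / m ^ 3 := by
  classical
  have hm0 : (0 : ℝ) < m := by exact_mod_cast (by omega : 0 < m)
  -- the points
  let U := (Box A B).filter (fun v : ℤ × ℤ × ℤ => |v.1| * (m : ℤ) ≤ 4 * A ∧ |v.2.1| * m ≤ 4 * B ∧ |v.2.2| * m ≤ 4 * B)
  -- facts on a point with a quadruple
  have key : ∀ v ∈ Box A B, v ≠ 0 → ∀ p ∈ QP P, Dis p → IsL p v →
      v.1 ≠ 0 ∧ (v.2.1 ≠ 0 ∨ v.2.2 ≠ 0) := by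
    intro v hv h0 p hp hd hl
    refine ⟨(Tri_forms P A B hB v hv h0 p hp hl).1, ?_⟩
    by_contra hcon
    push Not at hcon
    obtain ⟨q1, q2, q3, q4⟩ := Tri_qp hp
    obtain ⟨l1, l2, l3, l4⟩ := hl
    have hv1 : v.1 ≠ 0 := by
      intro e
      exact h0 (Prod.ext e (Prod.ext hcon.1 hcon.2))
    rw [hcon.1, hcon.2, add_zero, add_zero] at l2
    rw [hcon.1, add_zero] at l3
    rw [hcon.2, add_zero] at l4
    obtain ⟨d1, d2, d3, d4, d5, d6⟩ := hd
    obtain ⟨r1, -, s1⟩ := Tri_pb q1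
    obtain ⟨r2, -, s2⟩ := Tri_pb q2
    obtain ⟨r3, -, s3⟩ := Tri_pb q3
    obtain ⟨r4, -, s4⟩ := Tri_pb q4
    have m1 : p.1.1 ∣ v.1.natAbs := Int.natCast_dvd.1 l1
    have m2 : p.1.2 ∣ v.1.natAbs := Int.natCast_dvd.1 l2
    have m3 : p.2.1 ∣ v.1.natAbs := Int.natCast_dvd.1 l3
    have m4 : p.2.2 ∣ v.1.natAbs := Int.natCast_dvd.1 l4
    have c12 := (Nat.coprime_primes s1 s2).2 d1
    have c13 := (Nat.coprime_primes s1 s3).2 d2
    have c14 := (Nat.coprime_primes s1 s4).2 d3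
    have c23 := (Nat.coprime_primes s2 s3).2 d4
    have c24 := (Nat.coprime_primes s2 s4).2 d5
    have c34 := (Nat.coprime_primes s3 s4).2 d6
    have m12 := c12.mul_dvd_of_dvd_of_dvd m1 m2
    have m34 := c34.mul_dvd_of_dvd_of_dvd m3 m4
    have cc : Nat.Coprime (p.1.1 * p.1.2) (p.2.1 * p.2.2) :=
      Nat.Coprime.mul_left (Nat.Coprime.mul_right c13 c14) (Nat.Coprime.mul_right c23 c24)
    have mm := cc.mul_dvd_of_dvd_of_dvd m12 m34
    have hle := Nat.le_of_dvd (Int.natAbs_pos.2 hv1) mm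
    have hlt : P ^ 4 < p.1.1 * p.1.2 * (p.2.1 * p.2.2) := by
      have t1 : P * P < p.1.1 * p.1.2 := Nat.mul_lt_mul'' r1 r2
      have t2 : P * P < p.2.1 * p.2.2 := Nat.mul_lt_mul'' r3 r4
      calc P ^ 4 = (P * P) * (P * P) := by ring
        _ < _ := Nat.mul_lt_mul'' t1 t2
    have hb := (Tri_box hv).1
    have : v.1.natAbs < A := by omega
    omega
  have hfil : ∀ p, LamS A B m p = (Box A B).filter (fun v => IsL p v ∧
      (v ≠ 0 ∧ |v.1| * m ≤ 4 * A ∧ |v.2.1| * m ≤ 4 * B ∧ |v.2.2| * m ≤ 4 * B)) := by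
    intro p
    unfold LamS Lam
    rw [filter_filter]
  simp_rw [hfil]
  rw [Tri_swap]
  by_cases hc : m ≤ 4 * A ∧ m ≤ 4 * B
  · -- the sum over the points of U
    have e : ∀ v ∈ Box A B, ((((QP P).filter (fun p => Dis p)).filter (fun p => IsL p v ∧
        (v ≠ 0 ∧ |v.1| * (m : ℤ) ≤ 4 * A ∧ |v.2.1| * m ≤ 4 * B ∧ |v.2.2| * m ≤ 4 * B))).card : ℝ) ≤
        if v ∈ U then (k : ℝ) ^ 4 else 0 := by
      intro v hv
      rcases (((QP P).filter (fun p => Dis p)).filter (fun p => IsL p v ∧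
        (v ≠ 0 ∧ |v.1| * (m : ℤ) ≤ 4 * A ∧ |v.2.1| * m ≤ 4 * B ∧ |v.2.2| * m ≤ 4 * B))).eq_empty_or_nonempty with he | ⟨p, hp⟩
      · rw [he, card_empty, Nat.cast_zero]
        split_ifs
        · positivity
        · exact le_refl _
      · rw [mem_filter, mem_filter] at hp
        have hvU : v ∈ U := mem_filter.2 ⟨hv, hp.2.2.2⟩
        rw [if_pos hvU]
        have h1 := lam_pt P A B k hP hB hk v hv hp.2.2.1
        have h2 : (((QP P).filter (fun p => Dis p)).filter (fun p => IsL p v ∧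
          (v ≠ 0 ∧ |v.1| * m ≤ 4 * A ∧ |v.2.1| * m ≤ 4 * B ∧ |v.2.2| * m ≤ 4 * B))).card ≤ k ^ 4 := by
          refine le_trans (card_le_card ?_) h1
          intro q hq
          rw [mem_filter, mem_filter] at hq
          rw [mem_filter]
          exact ⟨hq.1.1, hq.2.1⟩
        exact_mod_cast h2
    refine (sum_le_sum e).trans ?_
    rw [← sum_filter, sum_const, nsmul_eq_mul]
    have h3 : ((Box A B).filter (fun v => v ∈ U)).card ≤ U.card := by
      refine card_le_card ?_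
      intro x hx
      rw [mem_filter] at hx
      exact hx.2
    have hU : (U.card : ℝ) ≤ 12 * A / m * (12 * B / m * (12 * B / m)) := by
      have hsub : U ⊆ (Ioo (-(A : ℤ)) A).filter (fun t : ℤ => |t| * (m : ℤ) ≤ 4 * A) ×ˢ
          ((Ioo (-(B : ℤ)) B).filter (fun t : ℤ => |t| * (m : ℤ) ≤ 4 * B) ×ˢ (Ioo (-(B : ℤ)) B).filter (fun t : ℤ => |t| * (m : ℤ) ≤ 4 * B)) := by
        intro v hv
        have hv' := mem_filter.1 hv
        obtain ⟨b1, b2, b3⟩ := Tri_box hv'.1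
        rw [mem_product, mem_product, mem_filter, mem_filter, mem_filter, mem_Ioo, mem_Ioo, mem_Ioo]
        exact ⟨⟨b1, hv'.2.1⟩, ⟨b2, hv'.2.2.1⟩, ⟨b3, hv'.2.2.2⟩⟩
      have h4 := card_le_card hsub
      rw [card_product, card_product] at h4
      have h5 := Tri_cnt A m hm hc.1 ((Ioo (-(A : ℤ)) A).filter (fun t : ℤ => |t| * (m : ℤ) ≤ 4 * A))
        (fun t ht => (mem_filter.1 ht).2)
      have h6 := Tri_cnt B m hm hc.2 ((Ioo (-(B : ℤ)) B).filter (fun t : ℤ => |t| * (m : ℤ) ≤ 4 * B))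
        (fun t ht => (mem_filter.1 ht).2)
      have h7 : (U.card : ℝ) ≤ (((Ioo (-(A : ℤ)) A).filter (fun t : ℤ => |t| * (m : ℤ) ≤ 4 * A)).card : ℝ) *
          ((((Ioo (-(B : ℤ)) B).filter (fun t : ℤ => |t| * (m : ℤ) ≤ 4 * B)).card : ℝ) *
          (((Ioo (-(B : ℤ)) B).filter (fun t : ℤ => |t| * (m : ℤ) ≤ 4 * B)).card : ℝ)) := by exact_mod_cast h4
      refine h7.trans ?_
      gcongr
    have h4 : (((Box A B).filter (fun v => v ∈ U)).card : ℝ) ≤ 12 * A / m * (12 * B / m * (12 * B / m)) :=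
      le_trans (by exact_mod_cast h3) hU
    calc (((Box A B).filter (fun v => v ∈ U)).card : ℝ) * (k : ℝ) ^ 4
        ≤ (12 * A / m * (12 * B / m * (12 * B / m))) * (k : ℝ) ^ 4 :=
          mul_le_mul_of_nonneg_right h4 (by positivity)
      _ = 1728 * k ^ 4 * A * B ^ 2 / m ^ 3 := by
          field_simp
          ring
  · have e : ∀ v ∈ Box A B, ((((QP P).filter (fun p => Dis p)).filter (fun p => IsL p v ∧
        (v ≠ 0 ∧ |v.1| * (m : ℤ) ≤ 4 * A ∧ |v.2.1| * m ≤ 4 * B ∧ |v.2.2| * m ≤ 4 * B))).card : ℝ) = 0 := by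
      intro v hv
      rw [Nat.cast_eq_zero, card_eq_zero, filter_eq_empty_iff]
      intro p hp hcon
      rw [mem_filter] at hp
      obtain ⟨hl, h0, s1, s2, s3⟩ := hcon
      obtain ⟨f1, f2⟩ := key v hv h0 p hp.1 hp.2 hl
      apply hc
      have pos : ∀ t : ℤ, t ≠ 0 → ∀ C : ℕ, |t| * m ≤ 4 * C → m ≤ 4 * C := by
        intro t ht C hC
        have h1 : 1 ≤ |t| := Int.one_le_abs ht
        have h2 : (1 : ℤ) * m ≤ |t| * m := mul_le_mul_of_nonneg_right h1 (Int.natCast_nonneg _)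
        have h3 : (m : ℤ) ≤ 4 * C := by linarith
        exact_mod_cast h3
      refine ⟨pos _ f1 A s1, ?_⟩
      rcases f2 with f2 | f2
      · exact pos _ f2 B s2
      · exact pos _ f2 B s3
    rw [sum_congr rfl e, sum_const_zero]
    positivity

end Pool.Agent.H56.TI2
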