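import Pool.Agent.H56.TI2.Poi
import Pool.Agent.H56.TI2.Tri
import Pool.Agent.H56.TI2.Pla

/-!
# TI2 Cnt: the number of dual points, summed over the quadruples of primes

`A = max(1, ⌊1/(8ρ)⌋) ≥ 1/(16ρ)`, `B = max(1, ⌊1/(8G)⌋) ≥ 1/(16G)`; `2B ≤ P`, `A < P⁴`, `A + 2B ≤ P^(k+1)`, `1/(AB²) ≤ 4096 ρG²`, `#Du ≤ 1024 P⁴/(AB²) #Lam`.
Coincident primes: `≤ 1024 P⁴/(AB²) (6P³ + 24 k⁴ AB) ≤ C P⁴ s² + C k⁴ P⁴ G`.
Distinct primes, `s ≥ 2^(-14)`: `≤ 1024 P⁴/(AB²) (P⁴ + 8k⁴AB²) ≤ C k⁴ P⁴ (s² + s)`.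
`s < 2^(-14)`: `8Aρ ≤ 1`, `8BG ≤ 1`, `m = ⌊1/(4096 s)⌋ ≥ 4`; if `Du` is not empty, `#Lam ≥ AB²/(1024P⁴) ≥ 1/(2^22 s²) ≥ 4m²`, so `#Du ≤ 1024P⁴/(AB²) · 2m² #LamS`: `≤ 1024P⁴/(AB²) 2m² 1728 k⁴ AB²/m³ ≤ C k⁴ P⁴/m ≤ C k⁴ P⁴ s`.
-/

set_option autoImplicit false

namespace Pool.Agent.H56.TI2

open Finset
open Pool.Agent.H56.TI
open Pool.Agent.H35.W (pb)
open Pool.Agent.H53.MID (Bs nz)

private theorem Cnt_fl (t : ℝ) (ht : 0 < t) : ∃ A : ℕ, 1 ≤ A ∧ 1 ≤ 16 * (A : ℝ) * t ∧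
    (A = 1 ∨ 8 * (A : ℝ) * t ≤ 1) ∧ (8 * t ≤ 1 → 8 * (A : ℝ) * t ≤ 1) := by
  by_cases h : 8 * t ≤ 1
  · have hx : 1 ≤ 1 / (8 * t) := by
      rw [le_div_iff₀ (by positivity)]
      linarith
    have h1 : 1 ≤ ⌊1 / (8 * t)⌋₊ := Nat.le_floor (by exact_mod_cast hx)
    have h2 : (⌊1 / (8 * t)⌋₊ : ℝ) ≤ 1 / (8 * t) := Nat.floor_le (by positivity)
    have h3 : 1 / (8 * t) < ⌊1 / (8 * t)⌋₊ + 1 := Nat.lt_floor_add_one _
    have h1' : (1 : ℝ) ≤ ⌊1 / (8 * t)⌋₊ := by exact_mod_cast h1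
    have h4 : 8 * (⌊1 / (8 * t)⌋₊ : ℝ) * t ≤ 1 := by
      rw [le_div_iff₀ (by positivity)] at h2
      linarith
    refine ⟨⌊1 / (8 * t)⌋₊, h1, ?_, Or.inr h4, fun _ => h4⟩
    have h5 : 1 / (8 * t) ≤ 2 * ⌊1 / (8 * t)⌋₊ := by linarith
    rw [div_le_iff₀ (by positivity)] at h5
    linarith
  · push Not at h
    refine ⟨1, le_refl _, ?_, Or.inl rfl, fun h' => by linarith⟩
    push_cast
    linarith

private theorem Cnt_pb4 (P : ℕ) (p : (ℕ × ℕ) × (ℕ × ℕ)) (hp : p ∈ QP P) :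
    (1 ≤ p.1.1 ∧ 1 ≤ p.1.2 ∧ 1 ≤ p.2.1 ∧ 1 ≤ p.2.2) ∧
      ((p.1.1 : ℝ) * p.1.2 * p.2.1 * p.2.2) ≤ 16 * P ^ 4 := by
  simp only [QP, pb, mem_product, mem_filter, mem_Ioc] at hp
  obtain ⟨⟨⟨⟨a1, a2⟩, a3⟩, ⟨b1, b2⟩, b3⟩, ⟨⟨c1, c2⟩, c3⟩, ⟨d1, d2⟩, d3⟩ := hp
  refine ⟨⟨by omega, by omega, by omega, by omega⟩, ?_⟩
  have a2' : (p.1.1 : ℝ) ≤ 2 * P := by exact_mod_cast a2
  have b2' : (p.1.2 : ℝ) ≤ 2 * P := by exact_mod_cast b2
  have c2' : (p.2.1 : ℝ) ≤ 2 * P := by exact_mod_cast c2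
  have d2' : (p.2.2 : ℝ) ≤ 2 * P := by exact_mod_cast d2
  calc (p.1.1 : ℝ) * p.1.2 * p.2.1 * p.2.2 ≤ (2 * P) * (2 * P) * (2 * P) * (2 * P) := by
        gcongr
    _ = 16 * P ^ 4 := by ring

theorem cnt2 : ∃ C : ℝ, 0 < C ∧ ∀ (P k : ℕ) (G ρ s : ℝ), 20 ≤ P → 1 ≤ k → 0 < ρ → ρ ≤ 1 → 0 < G → G ≤ 1 →
    1 ≤ 4 * P * G → 1 ≤ ρ * P ^ 4 → 1 ≤ ρ * P ^ (k + 1) → 0 ≤ s → P ^ 4 * ρ * G ^ 2 ≤ s ^ 2 →
    ∑ p ∈ QP P, ((Du G ρ p).card : ℝ) ≤ C * k ^ 4 * P ^ 4 * (s + s ^ 2 + G) := by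
  classical
  refine ⟨2 ^ 40, by positivity, ?_⟩
  intro P k G ρ s hP hk hρ hρ1 hG hG1 hPG hρP hρk hs hsq
  obtain ⟨A, hA1, hA2, hA3, hA4⟩ := Cnt_fl ρ hρ
  obtain ⟨B, hB1, hB2, hB3, hB4⟩ := Cnt_fl G hG
  have hP' : (20 : ℝ) ≤ P := by exact_mod_cast hP
  have hk' : (1 : ℝ) ≤ k := by exact_mod_cast hk
  have hk4 : (1 : ℝ) ≤ (k : ℝ) ^ 4 := one_le_pow₀ hk'
  have hA1' : (1 : ℝ) ≤ A := by exact_mod_cast hA1
  have hB1' : (1 : ℝ) ≤ B := by exact_mod_cast hB1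
  have hPk : (20 : ℝ) * P ≤ P ^ (k + 1) := by
    have h1 : (P : ℝ) ^ 2 ≤ P ^ (k + 1) := pow_le_pow_right₀ (by linarith) (by omega)
    nlinarith
  have h2B' : 2 * (B : ℝ) ≤ P := by
    rcases hB3 with h | h
    · rw [h]
      push_cast
      linarith
    · have h1 : 8 * (B : ℝ) * G ≤ 4 * P * G := h.trans hPG
      have h2 : 8 * (B : ℝ) ≤ 4 * P := le_of_mul_le_mul_right h1 hG
      linarith
  have h2B : 2 * B ≤ P := by exact_mod_cast h2B'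
  have hAk' : (A : ℝ) + 2 * B ≤ P ^ (k + 1) := by
    rcases hA3 with h | h
    · rw [h]
      push_cast
      linarith
    · have h1 : 8 * (A : ℝ) * ρ ≤ P ^ (k + 1) * ρ := by linarith
      have h2 : 8 * (A : ℝ) ≤ P ^ (k + 1) := le_of_mul_le_mul_right h1 hρ
      linarith
  have hAk : A + 2 * B ≤ P ^ (k + 1) := by exact_mod_cast hAk'
  have hAP' : (A : ℝ) ≤ P ^ 4 := by
    rcases hA3 with h | h
    · rw [h]
      push_cast
      exact one_le_pow₀ (by linarith)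
    · have h1 : 8 * (A : ℝ) * ρ ≤ P ^ 4 * ρ := by linarith
      have h2 : 8 * (A : ℝ) ≤ P ^ 4 := le_of_mul_le_mul_right h1 hρ
      linarith
  have hAP : A ≤ P ^ 4 := by exact_mod_cast hAP'
  obtain ⟨W, hW⟩ : ∃ W : ℝ, W = (A : ℝ) * B ^ 2 := ⟨_, rfl⟩
  have hW0 : 0 < W := by
    rw [hW]
    positivity
  obtain ⟨V, hV⟩ : ∃ V : ℝ, V = 1024 * (P : ℝ) ^ 4 / W := ⟨_, rfl⟩
  have hV0 : 0 < V := by
    rw [hV]
    positivity
  have hVW : V * W = 1024 * (P : ℝ) ^ 4 := by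
    rw [hV]
    field_simp
  -- V ≤ 2^22 s^2
  have hW1 : 1 ≤ 4096 * W * (ρ * G ^ 2) := by
    have h1 : 1 ≤ (16 * (B : ℝ) * G) ^ 2 := one_le_pow₀ hB2
    have h2 : 1 * 1 ≤ (16 * (A : ℝ) * ρ) * (16 * (B : ℝ) * G) ^ 2 :=
      mul_le_mul hA2 h1 zero_le_one (by linarith)
    rw [hW]
    linarith [h2]
  have hVs : V ≤ 2 ^ 22 * s ^ 2 := by
    have h1 : V ≤ V * (4096 * W * (ρ * G ^ 2)) := le_mul_of_one_le_right hV0.le hW1
    have h2 : V * (4096 * W * (ρ * G ^ 2)) = 2 ^ 22 * (P ^ 4 * ρ * G ^ 2) := by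
      calc V * (4096 * W * (ρ * G ^ 2)) = 4096 * (V * W) * (ρ * G ^ 2) := by ring
        _ = 2 ^ 22 * (P ^ 4 * ρ * G ^ 2) := by
          rw [hVW]
          ring
    linarith
  -- pointwise
  have hpt : ∀ p ∈ QP P, ((Du G ρ p).card : ℝ) ≤ V * (Lam A B p).card := by
    intro p hp
    obtain ⟨⟨p1, p2, p3, p4⟩, hpr⟩ := Cnt_pb4 P p hp
    have h1 := du_le_lam A B G ρ p hA1 hB1 hA3 hB3 p1 p2 p3 p4
    have h2 : 64 * ((p.1.1 : ℝ) * p.1.2 * p.2.1 * p.2.2) * (Lam A B p).card ≤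
        V * W * (Lam A B p).card := by
      apply mul_le_mul_of_nonneg_right _ (Nat.cast_nonneg _)
      rw [hVW]
      linarith
    rw [← hW] at h1
    have h3 : ((Du G ρ p).card : ℝ) * W ≤ (V * (Lam A B p).card) * W := by
      calc ((Du G ρ p).card : ℝ) * W ≤ _ := h1.trans h2
        _ = _ := by ring
    exact le_of_mul_le_mul_right h3 hW0
  have hP34 : (P : ℝ) ^ 3 ≤ P ^ 4 := pow_le_pow_right₀ (by linarith) (by norm_num)
  have hP40 : (0 : ℝ) < (P : ℝ) ^ 4 := by positivity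
  have hQ0 : (0 : ℝ) ≤ (k : ℝ) ^ 4 * P ^ 4 := by positivity
  have hQP : (P : ℝ) ^ 4 ≤ (k : ℝ) ^ 4 * P ^ 4 := le_mul_of_one_le_left hP40.le hk4
  -- coincidences
  have hcoin : ∑ p ∈ (QP P).filter (fun p => ¬ Dis p), ((Du G ρ p).card : ℝ) ≤
      2 ^ 25 * ((k : ℝ) ^ 4 * P ^ 4) * (s ^ 2 + G) := by
    have h1 : ∑ p ∈ (QP P).filter (fun p => ¬ Dis p), ((Du G ρ p).card : ℝ) ≤
        V * ∑ p ∈ (QP P).filter (fun p => ¬ Dis p), ((Lam A B p).card : ℝ) := by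
      rw [mul_sum]
      exact sum_le_sum fun p hp => hpt p (mem_filter.1 hp).1
    have h2 := lam_coin P A B k (by omega) h2B hAk
    have h3 := mul_le_mul_of_nonneg_left h2 hV0.le
    have h4 : V * (A * B) ≤ 16384 * P ^ 4 * G := by
      have h5 : V * (A * B) * 1 ≤ V * (A * B) * (16 * B * G) :=
        mul_le_mul_of_nonneg_left hB2 (by positivity)
      have h6 : V * (A * B) * (16 * B * G) = 16 * (V * W) * G := by
        rw [hW]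
        ring
      rw [h6, hVW] at h5
      linarith
    have h5 : V * (P : ℝ) ^ 3 ≤ 2 ^ 22 * s ^ 2 * P ^ 4 := mul_le_mul hVs hP34 (by positivity) (by positivity)
    have h6 : (k : ℝ) ^ 4 * (V * (A * B)) ≤ (k : ℝ) ^ 4 * (16384 * P ^ 4 * G) :=
      mul_le_mul_of_nonneg_left h4 (by positivity)
    have h7 : s ^ 2 * (P : ℝ) ^ 4 ≤ s ^ 2 * ((k : ℝ) ^ 4 * P ^ 4) := mul_le_mul_of_nonneg_left hQP (sq_nonneg _)
    have h8 : 0 ≤ (k : ℝ) ^ 4 * P ^ 4 * G := by positivity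
    calc _ ≤ V * (6 * P ^ 3 + 24 * k ^ 4 * A * B) := h1.trans h3
      _ = 6 * (V * (P : ℝ) ^ 3) + 24 * ((k : ℝ) ^ 4 * (V * (A * B))) := by ring
      _ ≤ 6 * (2 ^ 22 * s ^ 2 * P ^ 4) + 24 * ((k : ℝ) ^ 4 * (16384 * P ^ 4 * G)) := by linarith
      _ = 6 * 2 ^ 22 * (s ^ 2 * (P : ℝ) ^ 4) + 24 * 16384 * ((k : ℝ) ^ 4 * P ^ 4 * G) := by ring
      _ ≤ 6 * 2 ^ 22 * (s ^ 2 * ((k : ℝ) ^ 4 * P ^ 4)) + 24 * 16384 * ((k : ℝ) ^ 4 * P ^ 4 * G) := by linarith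
      _ ≤ 2 ^ 25 * ((k : ℝ) ^ 4 * P ^ 4) * (s ^ 2 + G) := by
        have h9 : 0 ≤ s ^ 2 * ((k : ℝ) ^ 4 * P ^ 4) := by positivity
        linarith
  -- distinct
  have hdis : ∑ p ∈ (QP P).filter (fun p => Dis p), ((Du G ρ p).card : ℝ) ≤
      2 ^ 39 * ((k : ℝ) ^ 4 * P ^ 4) * (s + s ^ 2) := by
    have hb0 : 0 ≤ s ^ 2 * ((k : ℝ) ^ 4 * P ^ 4) := by positivity
    have hb1 : 0 ≤ s * ((k : ℝ) ^ 4 * P ^ 4) := by positivity
    by_cases hs2 : 1 / 2 ^ 14 ≤ s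
    · have h1 : ∑ p ∈ (QP P).filter (fun p => Dis p), ((Du G ρ p).card : ℝ) ≤
          V * ∑ p ∈ QP P, ((Lam A B p).card : ℝ) := by
        rw [mul_sum]
        refine (sum_le_sum fun p hp => hpt p (mem_filter.1 hp).1).trans ?_
        refine sum_le_sum_of_subset_of_nonneg (filter_subset _ _) fun p _ _ => ?_
        exact mul_nonneg hV0.le (Nat.cast_nonneg _)
      have h2 := mul_le_mul_of_nonneg_left (lam_all P A B k (by omega) h2B hAk) hV0.le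
      have h3 : V * (P ^ 4 + 8 * k ^ 4 * A * B ^ 2) = V * P ^ 4 + 8 * k ^ 4 * (V * W) := by
        rw [hW]
        ring
      rw [h3, hVW] at h2
      have h4 : V * (P : ℝ) ^ 4 ≤ 2 ^ 22 * s ^ 2 * ((k : ℝ) ^ 4 * P ^ 4) :=
        mul_le_mul hVs hQP hP40.le (by positivity)
      have h5 : (k : ℝ) ^ 4 * P ^ 4 ≤ 2 ^ 14 * s * ((k : ℝ) ^ 4 * P ^ 4) := by
        apply le_mul_of_one_le_left hQ0
        rw [div_le_iff₀ (by positivity)] at hs2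
        linarith
      calc _ ≤ V * (P : ℝ) ^ 4 + 8 * k ^ 4 * (1024 * P ^ 4) := h1.trans h2
        _ = V * (P : ℝ) ^ 4 + 8192 * ((k : ℝ) ^ 4 * P ^ 4) := by ring
        _ ≤ 2 ^ 22 * s ^ 2 * ((k : ℝ) ^ 4 * P ^ 4) + 8192 * (2 ^ 14 * s * ((k : ℝ) ^ 4 * P ^ 4)) := by linarith
        _ ≤ 2 ^ 39 * ((k : ℝ) ^ 4 * P ^ 4) * (s + s ^ 2) := by linarith
    · push Not at hs2
      have hs0 : 0 < s := by
        rcases hs.lt_or_eq with h | h
        · exact h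
        · exfalso
          rw [← h] at hsq
          have : (0 : ℝ) < P ^ 4 * ρ * G ^ 2 := by positivity
          norm_num at hsq
          linarith
      have hs3 : s ^ 2 < 1 / 2 ^ 28 := by
        have h1 : s ^ 2 < (1 / 2 ^ 14) ^ 2 := pow_lt_pow_left₀ hs2 hs (by norm_num)
        refine h1.trans_le (le_of_eq (by norm_num))
      have h8ρ : 8 * ρ ≤ 1 := by
        by_contra hc
        push Not at hc
        have h1 : (1 : ℝ) ≤ (4 * P * G) ^ 2 := one_le_pow₀ hPG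
        have h2 : (P : ℝ) ^ 2 * 1 ≤ P ^ 2 * (4 * P * G) ^ 2 := mul_le_mul_of_nonneg_left h1 (by positivity)
        have h3 : (P : ℝ) ^ 2 * (4 * P * G) ^ 2 = 16 * (P ^ 4 * G ^ 2) := by ring
        have h4 : (400 : ℝ) ≤ (P : ℝ) ^ 2 := by nlinarith
        have h5 : (25 : ℝ) ≤ P ^ 4 * G ^ 2 := by linarith
        have h6 : (P : ℝ) ^ 4 * ρ * G ^ 2 = ρ * (P ^ 4 * G ^ 2) := by ring
        have h7 : (1 / 8 : ℝ) * 25 ≤ ρ * (P ^ 4 * G ^ 2) := mul_le_mul (by linarith) h5 (by norm_num) hρ.le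
        rw [h6] at hsq
        norm_num at hs3
        linarith
      have h8G : 8 * G ≤ 1 := by
        by_contra hc
        push Not at hc
        have h1 : (1 / 64 : ℝ) ≤ G ^ 2 := by nlinarith
        have h2 : (1 : ℝ) * (1 / 64) ≤ (ρ * P ^ 4) * G ^ 2 := mul_le_mul hρP h1 (by norm_num) (by linarith)
        have h3 : (ρ * (P : ℝ) ^ 4) * G ^ 2 = P ^ 4 * ρ * G ^ 2 := by ring
        rw [h3] at h2
        norm_num at hs3
        linarith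
      obtain ⟨m, hm⟩ : ∃ m : ℕ, m = ⌊1 / (4096 * s)⌋₊ := ⟨_, rfl⟩
      have hx4 : (4 : ℝ) ≤ 1 / (4096 * s) := by
        rw [le_div_iff₀ (by positivity)]
        rw [lt_div_iff₀ (by positivity)] at hs2
        linarith
      have hm4 : 4 ≤ m := by
        rw [hm]
        exact Nat.le_floor (by exact_mod_cast hx4)
      have hm4' : (4 : ℝ) ≤ m := by exact_mod_cast hm4
      have hm0 : (0 : ℝ) < m := by linarith
      have hmle : (m : ℝ) ≤ 1 / (4096 * s) := by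
        rw [hm]
        exact Nat.floor_le (by positivity)
      have hmge : 1 / (4096 * s) ≤ 2 * m := by
        have h1 : 1 / (4096 * s) < m + 1 := by
          rw [hm]
          exact Nat.lt_floor_add_one _
        linarith
      have hms : (m : ℝ) * (4096 * s) ≤ 1 := by
        rwa [le_div_iff₀ (by positivity)] at hmle
      have hms2 : (m : ℝ) ^ 2 * (2 ^ 24 * s ^ 2) ≤ 1 := by
        have h1 : ((m : ℝ) * (4096 * s)) ^ 2 ≤ 1 := pow_le_one₀ (by positivity) hms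
        linarith [h1]
      have hpt2 : ∀ p ∈ (QP P).filter (fun p => Dis p), ((Du G ρ p).card : ℝ) ≤
          V * (2 * m ^ 2 * (LamS A B m p).card) := by
        intro p hp
        rw [mem_filter] at hp
        rcases Finset.eq_empty_or_nonempty (Du G ρ p) with he | hne
        · rw [he, card_empty, Nat.cast_zero]
          positivity
        · have h1 := hpt p hp.1
          have h2 : (1 : ℝ) ≤ (Du G ρ p).card := by
            exact_mod_cast Finset.card_pos.2 hne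
          have h3 : 1 ≤ V * (Lam A B p).card := h2.trans h1
          have h4 : V * (Lam A B p).card ≤ 2 ^ 22 * s ^ 2 * (Lam A B p).card :=
            mul_le_mul_of_nonneg_right hVs (Nat.cast_nonneg _)
          have h5 : (m : ℝ) ^ 2 * (2 ^ 24 * s ^ 2) ≤ 2 ^ 22 * s ^ 2 * (Lam A B p).card := by linarith
          have h6 : (4 * (m : ℝ) ^ 2) * (2 ^ 22 * s ^ 2) ≤ (Lam A B p).card * (2 ^ 22 * s ^ 2) := by linarith
          have h7 : 4 * (m : ℝ) ^ 2 ≤ (Lam A B p).card := le_of_mul_le_mul_right h6 (by positivity)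
          have h8 : 4 * m ^ 2 ≤ (Lam A B p).card := by exact_mod_cast h7
          have h9 := plane P A B m G ρ p hp.1 hp.2 hA1 hB1 (hA4 h8ρ) (hB4 h8G) hm4 hne (by omega)
          have h10 : ((Lam A B p).card : ℝ) ≤ 2 * m ^ 2 * (LamS A B m p).card := by exact_mod_cast h9
          exact h1.trans (mul_le_mul_of_nonneg_left h10 hV0.le)
      have h1 := sum_le_sum hpt2
      rw [← mul_sum, ← mul_sum] at h1
      have h2 := lam_small P A B k m (by omega) h2B hAk hAP (by omega)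
      have h3 : V * (2 * (m : ℝ) ^ 2 * ∑ p ∈ (QP P).filter (fun p => Dis p), ((LamS A B m p).card : ℝ)) ≤
          V * (2 * m ^ 2 * (1728 * k ^ 4 * A * B ^ 2 / m ^ 3)) := by
        apply mul_le_mul_of_nonneg_left _ hV0.le
        exact mul_le_mul_of_nonneg_left h2 (by positivity)
      have h4 : V * (2 * (m : ℝ) ^ 2 * (1728 * k ^ 4 * A * B ^ 2 / m ^ 3)) = 3538944 * (k ^ 4 * P ^ 4) * (1 / m) := by
        have h5 : V * (2 * (m : ℝ) ^ 2 * (1728 * k ^ 4 * A * B ^ 2 / m ^ 3)) = 3456 * k ^ 4 * (V * (A * B ^ 2)) * (1 / m) := by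
          have e : (m : ℝ) ^ 2 * (1 / m ^ 3) = 1 / m := by
            field_simp
          rw [← e]
          ring
        rw [h5, ← hW, hVW]
        ring
      have h5 : 1 / (m : ℝ) ≤ 8192 * s := by
        rw [div_le_iff₀ hm0]
        rw [div_le_iff₀ (by positivity)] at hmge
        linarith
      have h6 : 3538944 * ((k : ℝ) ^ 4 * P ^ 4) * (1 / m) ≤ 3538944 * ((k : ℝ) ^ 4 * P ^ 4) * (8192 * s) :=
        mul_le_mul_of_nonneg_left h5 (by positivity)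
      rw [h4] at h3
      refine (h1.trans (h3.trans h6)).trans ?_
      linarith
  have hsplit := sum_filter_add_sum_filter_not (QP P) (fun p => Dis p) (fun p => ((Du G ρ p).card : ℝ))
  rw [← hsplit]
  have hb0 : 0 ≤ s ^ 2 * ((k : ℝ) ^ 4 * P ^ 4) := by positivity
  have hb1 : 0 ≤ s * ((k : ℝ) ^ 4 * P ^ 4) := by positivity
  have hb2 : 0 ≤ G * ((k : ℝ) ^ 4 * P ^ 4) := by positivity
  linarith

end Pool.Agent.H56.TI2
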