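import Pool.Agent.H56.TI.Blk

/-!
# PROJECT TI2 (MP_967f73_nt): type I sums beyond the window, level `P^4 N^e ≤ N H^2`

`ti_lfu` (directory `TI`) needs `P^4 N^e ≤ N H`; here the closeness of all the fractions is kept and the condition is `P^4 N^e ≤ N H^2` (`H^3 N^e ≤ N`).

For primes `p = ((p1, p2), (p3, p4))` (in `pb P`) and numerators `u = ((u1, u2), (u3, u4))`, `x_i = u_i/p_i`, `0 < u_i < p_i`: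
* `Du G ρ p`: the `u` with `nz(x1 + x2 - x3 - x4) ≤ ρ`, `nz(x2 - x3) ≤ G`, `nz(x2 - x4) ≤ G`;
* `Lam A B p`: the integer points `(n, h, k)`, `|n| < A`, `|h|, |k| < B`, `p1 ∣ n`, `p2 ∣ n + h + k`, `p3 ∣ n + h`, `p4 ∣ n + k`;
  note `x1 n + x2 (n + h + k) - x3 (n + h) - x4 (n + k) = n (x1 + x2 - x3 - x4) + h (x2 - x3) + k (x2 - x4)` is an integer for these;
* `LamS A B m p`: the nonzero points of `Lam A B p` with `m |n| ≤ 4A`, `m |h|, m |k| ≤ 4B`.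

Chain: `Poi` (Poisson): `#Du · A B² ≤ 64 p1 p2 p3 p4 #Lam` (`ρ ≤ 1/(8A)`, `G ≤ 1/(8B)`).  `Pla`: if `Du` is not empty, all points of `Lam` lie in one plane, so (pigeonhole) `#Lam ≤ 2m² #LamS`.
`Tri`: the sums over all `p` of `#Lam`, `#LamS` (divisor count).  `Cnt`: `∑_p #Du ≤ C k⁴ P⁴ (s + s² + G)`, `s² = P⁴ ρ G²`.  `Off`: `T4 ≤ ...`, `Bad`, `Blk` as in `TI`.
-/

set_option autoImplicit false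

namespace Pool.Agent.H56.TI2

open Finset
open Pool.Agent.H35.W (pb)
open Pool.Agent.H53.MID (Bs nz)

/-- the quadruples of primes -/
def QP (P : ℕ) : Finset ((ℕ × ℕ) × (ℕ × ℕ)) := (pb P ×ˢ pb P) ×ˢ (pb P ×ˢ pb P)

/-- the four primes are distinct -/
def Dis (p : (ℕ × ℕ) × (ℕ × ℕ)) : Prop :=
  p.1.1 ≠ p.1.2 ∧ p.1.1 ≠ p.2.1 ∧ p.1.1 ≠ p.2.2 ∧ p.1.2 ≠ p.2.1 ∧ p.1.2 ≠ p.2.2 ∧ p.2.1 ≠ p.2.2

instance (p : (ℕ × ℕ) × (ℕ × ℕ)) : Decidable (Dis p) := by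
  unfold Dis
  infer_instance

/-- the divisibility conditions -/
def IsL (p : (ℕ × ℕ) × (ℕ × ℕ)) (v : ℤ × ℤ × ℤ) : Prop :=
  (p.1.1 : ℤ) ∣ v.1 ∧ (p.1.2 : ℤ) ∣ v.1 + v.2.1 + v.2.2 ∧ (p.2.1 : ℤ) ∣ v.1 + v.2.1 ∧ (p.2.2 : ℤ) ∣ v.1 + v.2.2

instance (p : (ℕ × ℕ) × (ℕ × ℕ)) (v : ℤ × ℤ × ℤ) : Decidable (IsL p v) := by
  unfold IsL
  infer_instance

/-- the box `|n| < A`, `|h|, |k| < B` -/
noncomputable def Box (A B : ℕ) : Finset (ℤ × ℤ × ℤ) :=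
  Ioo (-(A : ℤ)) A ×ˢ (Ioo (-(B : ℤ)) B ×ˢ Ioo (-(B : ℤ)) B)

/-- the lattice points in the box -/
noncomputable def Lam (A B : ℕ) (p : (ℕ × ℕ) × (ℕ × ℕ)) : Finset (ℤ × ℤ × ℤ) := (Box A B).filter (fun v => IsL p v)

/-- the nonzero lattice points in the small box -/
noncomputable def LamS (A B m : ℕ) (p : (ℕ × ℕ) × (ℕ × ℕ)) : Finset (ℤ × ℤ × ℤ) :=
  (Lam A B p).filter (fun v => v ≠ 0 ∧ |v.1| * m ≤ 4 * A ∧ |v.2.1| * m ≤ 4 * B ∧ |v.2.2| * m ≤ 4 * B)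

open Classical in
/-- the dual points -/
noncomputable def Du (G ρ : ℝ) (p : (ℕ × ℕ) × (ℕ × ℕ)) : Finset ((ℕ × ℕ) × (ℕ × ℕ)) :=
  ((Ico 1 p.1.1 ×ˢ Ico 1 p.1.2) ×ˢ (Ico 1 p.2.1 ×ˢ Ico 1 p.2.2)).filter (fun u =>
    nz ((u.1.1 : ℝ) / p.1.1 + (u.1.2 : ℝ) / p.1.2 - (u.2.1 : ℝ) / p.2.1 - (u.2.2 : ℝ) / p.2.2) ≤ ρ ∧
    nz ((u.1.2 : ℝ) / p.1.2 - (u.2.1 : ℝ) / p.2.1) ≤ G ∧ nz ((u.1.2 : ℝ) / p.1.2 - (u.2.2 : ℝ) / p.2.2) ≤ G)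

end Pool.Agent.H56.TI2
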