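import Pool.Agent.H56.TI2.Cnt

/-!
# TI2 Off: the bound for `T4`

`Tj ≤ 2JK² Wk K (nz(x2-x3))` and `≤ 2JK² Wk K (nz(x2-x4))` (as `off_Tj` of `TI/Off.lean`), so `Tj ≤ 2JK² Wk K D`, `D = max(nz(x2-x3), nz(x2-x4))`; `fej X (x1+x2-x3-x4) ≤ Wk X (nz ..)`; `wk_dyad` for both:
`T4 ≤ 2JK² ∑_{s' ≤ log K, s ≤ log X} 16KX 4^(-s'-s) #{q : nz(x2-x3), nz(x2-x4) ≤ 2^s'/K, nz(x1+x2-x3-x4) ≤ 2^s/X}` and the count is `∑_{p ∈ QP P} #Du (2^s'/K) (2^s/X) p ≤ C k⁴ P⁴ (q 2^(s'+s) + q² 4^(s'+s) + 2^s'/K)` (`cnt2`).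
-/

set_option autoImplicit false

namespace Pool.Agent.H56.TI2

open Finset
open Pool.Agent.H56.TI
open Pool.Agent.H35.W (pb)
open Pool.Agent.H53.MID (Bs nz)

private theorem Off_Tj (K J : ℕ) (hK : 1 ≤ K) (hJ : K ≤ J) (q1 q2 q3 q4 : ℕ × ℕ) :
    Tj K J q1 q2 q3 q4 ≤ 2 * J * K ^ 2 * Wk K (nz (xf q2 - xf q3)) := by
  unfold Tj
  have h1 : ∑ j ∈ range J, fej K (xf q1 - j / J) * fej K (xf q2 - j / J) * fej K (xf q3 - j / J) * fej K (xf q4 - j / J) ≤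
      ∑ j ∈ range J, (K : ℝ) ^ 2 * (fej K (xf q2 - j / J) * fej K (xf q3 - j / J)) := by
    apply sum_le_sum
    intro j _
    have a1 := fej_nonneg K (xf q1 - j / J)
    have a2 := fej_nonneg K (xf q2 - j / J)
    have a3 := fej_nonneg K (xf q3 - j / J)
    have a4 := fej_nonneg K (xf q4 - j / J)
    have b1 := fej_le K (xf q1 - j / J)
    have b4 := fej_le K (xf q4 - j / J)
    have e1 : fej K (xf q1 - j / J) * fej K (xf q2 - j / J) * fej K (xf q3 - j / J) * fej K (xf q4 - j / J) =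
        (fej K (xf q1 - j / J) * fej K (xf q4 - j / J)) * (fej K (xf q2 - j / J) * fej K (xf q3 - j / J)) := by ring
    rw [e1]
    apply mul_le_mul_of_nonneg_right _ (mul_nonneg a2 a3)
    calc fej K (xf q1 - j / J) * fej K (xf q4 - j / J) ≤ K * K := mul_le_mul b1 b4 a4 (Nat.cast_nonneg K)
      _ = (K : ℝ) ^ 2 := by ring
  refine h1.trans ?_
  rw [← mul_sum]
  have h2 := fej_grid2 K J hK hJ (xf q2) (xf q3)
  have h3 := mul_le_mul_of_nonneg_left h2 (by positivity : (0 : ℝ) ≤ (K : ℝ) ^ 2)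
  refine h3.trans (le_of_eq ?_)
  ring

private theorem Off_Tj_symm (K J : ℕ) (q1 q2 q3 q4 : ℕ × ℕ) :
    Tj K J q1 q2 q3 q4 = Tj K J q1 q2 q4 q3 := by
  unfold Tj
  exact sum_congr rfl fun j _ => by ring

private theorem Off_Tj2 (K J : ℕ) (hK : 1 ≤ K) (hJ : K ≤ J) (q1 q2 q3 q4 : ℕ × ℕ) :
    Tj K J q1 q2 q3 q4 ≤ 2 * J * K ^ 2 * Wk K (max (nz (xf q2 - xf q3)) (nz (xf q2 - xf q4))) := by
  rcases le_total (nz (xf q2 - xf q3)) (nz (xf q2 - xf q4)) with h | h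
  · rw [max_eq_right h, Off_Tj_symm]
    exact Off_Tj K J hK hJ q1 q2 q4 q3
  · rw [max_eq_left h]
    exact Off_Tj K J hK hJ q1 q2 q3 q4

open Classical in
private theorem Off_pt (K J X : ℕ) (hK : 1 ≤ K) (hJ : K ≤ J) (hX : K ^ 2 ≤ X) (q1 q2 q3 q4 : ℕ × ℕ) :
    Tj K J q1 q2 q3 q4 * fej X (xf q1 + xf q2 - xf q3 - xf q4) ≤
    2 * J * K ^ 2 * ∑ s' ∈ range (Nat.log 2 K + 1), ∑ s ∈ range (Nat.log 2 X + 1),
      if (nz (xf q1 + xf q2 - xf q3 - xf q4) ≤ 2 ^ s / X ∧ nz (xf q2 - xf q3) ≤ 2 ^ s' / K ∧ nz (xf q2 - xf q4) ≤ 2 ^ s' / K)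
        then 16 * (K : ℝ) * X / 4 ^ (s' + s) else 0 := by
  have hX1 : 1 ≤ X := le_trans (Nat.one_le_pow _ _ hK) hX
  have hT := Off_Tj2 K J hK hJ q1 q2 q3 q4
  have hF := fej_le_W X hX1 (xf q1 + xf q2 - xf q3 - xf q4)
  have hF0 := fej_nonneg X (xf q1 + xf q2 - xf q3 - xf q4)
  have n1 := Pool.Agent.H53.MID.nz_nonneg (xf q2 - xf q3)
  have n2 := Pool.Agent.H53.MID.nz_le_half (xf q2 - xf q3)
  have n3 := Pool.Agent.H53.MID.nz_nonneg (xf q2 - xf q4)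
  have n4 := Pool.Agent.H53.MID.nz_le_half (xf q2 - xf q4)
  have hW1 := wk_dyad K hK (max (nz (xf q2 - xf q3)) (nz (xf q2 - xf q4))) (le_max_of_le_left n1) (max_le n2 n4)
  have hW2 := wk_dyad X hX1 (nz (xf q1 + xf q2 - xf q3 - xf q4)) (Pool.Agent.H53.MID.nz_nonneg _) (Pool.Agent.H53.MID.nz_le_half _)
  have hW10 := wk_nonneg K (max (nz (xf q2 - xf q3)) (nz (xf q2 - xf q4)))
  have hW20 := wk_nonneg X (nz (xf q1 + xf q2 - xf q3 - xf q4))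
  calc Tj K J q1 q2 q3 q4 * fej X (xf q1 + xf q2 - xf q3 - xf q4)
      ≤ (2 * J * K ^ 2 * Wk K (max (nz (xf q2 - xf q3)) (nz (xf q2 - xf q4)))) *
          Wk X (nz (xf q1 + xf q2 - xf q3 - xf q4)) := by
        apply mul_le_mul hT hF hF0
        apply mul_nonneg (by positivity) hW10
    _ = 2 * J * K ^ 2 * (Wk K (max (nz (xf q2 - xf q3)) (nz (xf q2 - xf q4))) *
          Wk X (nz (xf q1 + xf q2 - xf q3 - xf q4))) := by ring
    _ ≤ _ := by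
        apply mul_le_mul_of_nonneg_left _ (by positivity)
        refine (mul_le_mul hW1 hW2 hW20 (hW10.trans hW1)).trans (le_of_eq ?_)
        rw [sum_mul_sum]
        apply sum_congr rfl
        intro s' _
        apply sum_congr rfl
        intro s _
        by_cases c1 : max (nz (xf q2 - xf q3)) (nz (xf q2 - xf q4)) ≤ 2 ^ s' / K
        · by_cases c2 : nz (xf q1 + xf q2 - xf q3 - xf q4) ≤ 2 ^ s / X
          · rw [if_pos c1, if_pos c2, if_pos ⟨c2, (le_max_left _ _).trans c1, (le_max_right _ _).trans c1⟩, pow_add]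
            have ha : (0 : ℝ) < 4 ^ s' := by positivity
            have hb : (0 : ℝ) < 4 ^ s := by positivity
            field_simp
            ring
          · rw [if_neg c2, mul_zero, if_neg (fun hh => c2 hh.1)]
        · rw [if_neg c1, zero_mul, if_neg (fun hh => c1 (max_le hh.2.1 hh.2.2))]

private theorem Off_mem (P : ℕ) (q : ℕ × ℕ) (hq : q ∈ FR P) : q.1 ∈ pb P ∧ 1 ≤ q.2 ∧ q.2 < q.1 := by
  simp only [FR, mem_filter, mem_product, mem_Icc] at hq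
  exact ⟨hq.1.1, hq.1.2.1, hq.2⟩

open Classical in
private theorem Off_cnt (P : ℕ) (G ρ : ℝ) :
    ((((FR P ×ˢ FR P) ×ˢ (FR P ×ˢ FR P)).filter (fun t =>
      nz (xf t.1.1 + xf t.1.2 - xf t.2.1 - xf t.2.2) ≤ ρ ∧ nz (xf t.1.2 - xf t.2.1) ≤ G ∧
        nz (xf t.1.2 - xf t.2.2) ≤ G)).card : ℝ) ≤ ∑ p ∈ QP P, ((Du G ρ p).card : ℝ) := by
  rw [← Nat.cast_sum]
  norm_cast
  have hmaps : ∀ t ∈ ((FR P ×ˢ FR P) ×ˢ (FR P ×ˢ FR P)).filter (fun t =>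
      nz (xf t.1.1 + xf t.1.2 - xf t.2.1 - xf t.2.2) ≤ ρ ∧ nz (xf t.1.2 - xf t.2.1) ≤ G ∧
        nz (xf t.1.2 - xf t.2.2) ≤ G), (((t.1.1.1, t.1.2.1), (t.2.1.1, t.2.2.1)) : (ℕ × ℕ) × (ℕ × ℕ)) ∈ QP P := by
    intro t ht
    rw [mem_filter, mem_product, mem_product, mem_product] at ht
    obtain ⟨⟨⟨m1, m2⟩, m3, m4⟩, _⟩ := ht
    simp only [QP, mem_product]
    exact ⟨⟨(Off_mem P _ m1).1, (Off_mem P _ m2).1⟩, (Off_mem P _ m3).1, (Off_mem P _ m4).1⟩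
  rw [card_eq_sum_card_fiberwise hmaps]
  refine sum_le_sum fun p _ => ?_
  refine card_le_card_of_injOn (fun t => ((t.1.1.2, t.1.2.2), (t.2.1.2, t.2.2.2))) ?_ ?_
  · intro t ht
    rw [mem_coe, mem_filter, mem_filter, mem_product, mem_product, mem_product] at ht
    obtain ⟨⟨⟨⟨m1, m2⟩, m3, m4⟩, c1, c2, c3⟩, rfl⟩ := ht
    rw [mem_coe]
    simp only [Du, mem_filter, mem_product, mem_Ico]
    exact ⟨⟨⟨(Off_mem P _ m1).2, (Off_mem P _ m2).2⟩, (Off_mem P _ m3).2, (Off_mem P _ m4).2⟩, c1, c2, c3⟩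
  · intro t ht t' ht' h
    rw [mem_coe, mem_filter] at ht ht'
    have e := ht.2.trans ht'.2.symm
    simp only [Prod.mk.injEq] at e h
    obtain ⟨⟨e1, e2⟩, e3, e4⟩ := e
    obtain ⟨⟨h1, h2⟩, h3, h4⟩ := h
    exact Prod.ext (Prod.ext (Prod.ext e1 h1) (Prod.ext e2 h2)) (Prod.ext (Prod.ext e3 h3) (Prod.ext e4 h4))

theorem t4_le : ∃ C : ℝ, 0 < C ∧ ∀ (P K J X k : ℕ) (q : ℝ), 20 ≤ P → 1 ≤ k → 1 ≤ K → K ≤ J → K ^ 2 ≤ X → K ≤ 4 * P →
    X ≤ P ^ 4 → X ≤ P ^ (k + 1) → 0 ≤ q → (P : ℝ) ^ 4 ≤ q ^ 2 * (K ^ 2 * X) →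
    T4 P K J X ≤ C * k ^ 4 * P ^ 4 * J * K ^ 3 * X * ((q + q ^ 2 + 1 / K) * (Nat.log 2 X + 1) ^ 2) := by
  classical
  obtain ⟨C, hC, hcnt⟩ := cnt2
  refine ⟨32 * C, by positivity, ?_⟩
  intro P K J X k q hP hk hK hJ hX hKP hXP hXk hq hqq
  have hX1 : 1 ≤ X := le_trans (Nat.one_le_pow _ _ hK) hX
  have hK0 : (0 : ℝ) < K := by exact_mod_cast hK
  have hX0 : (0 : ℝ) < X := by exact_mod_cast hX1
  -- pointwise
  have h1 : T4 P K J X ≤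
      ∑ q1 ∈ FR P, ∑ q2 ∈ FR P, ∑ q3 ∈ FR P, ∑ q4 ∈ FR P,
      2 * J * K ^ 2 * ∑ s' ∈ range (Nat.log 2 K + 1), ∑ s ∈ range (Nat.log 2 X + 1),
      (if (nz (xf q1 + xf q2 - xf q3 - xf q4) ≤ 2 ^ s / X ∧ nz (xf q2 - xf q3) ≤ 2 ^ s' / K ∧
          nz (xf q2 - xf q4) ≤ 2 ^ s' / K)
        then 16 * (K : ℝ) * X / 4 ^ (s' + s) else 0) := by
    unfold T4
    apply sum_le_sum; intro q1 _
    apply sum_le_sum; intro q2 _
    apply sum_le_sum; intro q3 _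
    apply sum_le_sum; intro q4 _
    exact Off_pt K J X hK hJ hX q1 q2 q3 q4
  refine h1.trans ?_
  -- rearrange
  have h2 : ∑ q1 ∈ FR P, ∑ q2 ∈ FR P, ∑ q3 ∈ FR P, ∑ q4 ∈ FR P,
      2 * J * K ^ 2 * ∑ s' ∈ range (Nat.log 2 K + 1), ∑ s ∈ range (Nat.log 2 X + 1),
      (if (nz (xf q1 + xf q2 - xf q3 - xf q4) ≤ 2 ^ s / X ∧ nz (xf q2 - xf q3) ≤ 2 ^ s' / K ∧
          nz (xf q2 - xf q4) ≤ 2 ^ s' / K)
        then 16 * (K : ℝ) * X / 4 ^ (s' + s) else 0) =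
      ∑ t ∈ (FR P ×ˢ FR P) ×ˢ (FR P ×ˢ FR P),
      2 * J * K ^ 2 * ∑ s' ∈ range (Nat.log 2 K + 1), ∑ s ∈ range (Nat.log 2 X + 1),
      (if (nz (xf t.1.1 + xf t.1.2 - xf t.2.1 - xf t.2.2) ≤ 2 ^ s / X ∧ nz (xf t.1.2 - xf t.2.1) ≤ 2 ^ s' / K ∧
          nz (xf t.1.2 - xf t.2.2) ≤ 2 ^ s' / K)
        then 16 * (K : ℝ) * X / 4 ^ (s' + s) else 0) := by
    rw [sum_product, sum_product]
    apply sum_congr rfl; intro q1 _
    apply sum_congr rfl; intro q2 _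
    rw [sum_product]
  rw [h2, ← mul_sum]
  have hlog : Nat.log 2 K + 1 ≤ Nat.log 2 X + 1 :=
    Nat.succ_le_succ (Nat.log_mono_right ((Nat.le_self_pow two_ne_zero K).trans hX))
  obtain ⟨T, hT⟩ : ∃ T : ℝ, T = 16 * K * X * (C * k ^ 4 * P ^ 4 * (q + q ^ 2 + 1 / K)) := ⟨_, rfl⟩
  have hT0 : 0 ≤ T := by
    rw [hT]
    positivity
  have h3 : ∑ t ∈ (FR P ×ˢ FR P) ×ˢ (FR P ×ˢ FR P),
      ∑ s' ∈ range (Nat.log 2 K + 1), ∑ s ∈ range (Nat.log 2 X + 1),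
      (if (nz (xf t.1.1 + xf t.1.2 - xf t.2.1 - xf t.2.2) ≤ 2 ^ s / X ∧ nz (xf t.1.2 - xf t.2.1) ≤ 2 ^ s' / K ∧
          nz (xf t.1.2 - xf t.2.2) ≤ 2 ^ s' / K)
        then 16 * (K : ℝ) * X / 4 ^ (s' + s) else 0) ≤ ((Nat.log 2 X + 1 : ℕ) : ℝ) ^ 2 * T := by
    rw [sum_comm]
    have h4 : ∀ s' ∈ range (Nat.log 2 K + 1), ∑ t ∈ (FR P ×ˢ FR P) ×ˢ (FR P ×ˢ FR P), ∑ s ∈ range (Nat.log 2 X + 1),
      (if (nz (xf t.1.1 + xf t.1.2 - xf t.2.1 - xf t.2.2) ≤ 2 ^ s / X ∧ nz (xf t.1.2 - xf t.2.1) ≤ 2 ^ s' / K ∧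
          nz (xf t.1.2 - xf t.2.2) ≤ 2 ^ s' / K)
        then 16 * (K : ℝ) * X / 4 ^ (s' + s) else 0) ≤ ((Nat.log 2 X + 1 : ℕ) : ℝ) * T := by
      intro s' hs'
      rw [sum_comm, ← nsmul_eq_mul]
      nth_rewrite 2 [← card_range (Nat.log 2 X + 1)]
      apply sum_le_card_nsmul
      intro s hs
      rw [← sum_filter, sum_const, nsmul_eq_mul]
      have g1 : (1 : ℝ) ≤ 2 ^ s' := one_le_pow₀ (by norm_num)
      have g2 : (1 : ℝ) ≤ 2 ^ s := one_le_pow₀ (by norm_num)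
      have hG1 : (2 : ℝ) ^ s' / K ≤ 1 := by
        rw [div_le_one hK0]
        have h5 : 2 ^ s' ≤ K := by
          have h6 : s' ≤ Nat.log 2 K := by
            have := mem_range.mp hs'
            omega
          exact (Nat.pow_le_pow_right (by norm_num) h6).trans (Nat.pow_log_le_self 2 (by omega))
        exact_mod_cast h5
      have hR1 : (2 : ℝ) ^ s / X ≤ 1 := by
        rw [div_le_one hX0]
        have h5 : 2 ^ s ≤ X := by
          have h6 : s ≤ Nat.log 2 X := by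
            have := mem_range.mp hs
            omega
          exact (Nat.pow_le_pow_right (by norm_num) h6).trans (Nat.pow_log_le_self 2 (by omega))
        exact_mod_cast h5
      have hKP' : (K : ℝ) ≤ 4 * P := by exact_mod_cast hKP
      have hXP' : (X : ℝ) ≤ P ^ 4 := by exact_mod_cast hXP
      have hXk' : (X : ℝ) ≤ P ^ (k + 1) := by exact_mod_cast hXk
      have c1 : 1 ≤ 4 * (P : ℝ) * (2 ^ s' / K) := by
        rw [← mul_div_assoc, le_div_iff₀ hK0, one_mul]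
        exact hKP'.trans (le_mul_of_one_le_right (by positivity) g1)
      have c2 : 1 ≤ (2 : ℝ) ^ s / X * P ^ 4 := by
        rw [div_mul_eq_mul_div, le_div_iff₀ hX0, one_mul]
        exact hXP'.trans (le_mul_of_one_le_left (by positivity) g2)
      have c3 : 1 ≤ (2 : ℝ) ^ s / X * P ^ (k + 1) := by
        rw [div_mul_eq_mul_div, le_div_iff₀ hX0, one_mul]
        exact hXk'.trans (le_mul_of_one_le_left (by positivity) g2)
      have c4 : (P : ℝ) ^ 4 * (2 ^ s / X) * (2 ^ s' / K) ^ 2 ≤ (q * 2 ^ s' * 2 ^ s) ^ 2 := by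
        have d1 : (P : ℝ) ^ 4 * (2 ^ s / X) * (2 ^ s' / K) ^ 2 = P ^ 4 * (2 ^ s * (2 ^ s') ^ 2) / (K ^ 2 * X) := by
          field_simp
        rw [d1, div_le_iff₀ (by positivity)]
        calc (P : ℝ) ^ 4 * (2 ^ s * (2 ^ s') ^ 2) ≤ (q ^ 2 * (K ^ 2 * X)) * (2 ^ s * (2 ^ s') ^ 2) :=
              mul_le_mul_of_nonneg_right hqq (by positivity)
          _ ≤ (q ^ 2 * (K ^ 2 * X)) * ((2 ^ s * 2 ^ s) * (2 ^ s') ^ 2) := by
              apply mul_le_mul_of_nonneg_left _ (by positivity)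
              apply mul_le_mul_of_nonneg_right _ (by positivity)
              exact le_mul_of_one_le_left (by positivity) g2
          _ = (q * 2 ^ s' * 2 ^ s) ^ 2 * (K ^ 2 * X) := by ring
      have hc := (Off_cnt P (2 ^ s' / K) (2 ^ s / X)).trans
        (hcnt P k ((2 : ℝ) ^ s' / K) ((2 : ℝ) ^ s / X) (q * 2 ^ s' * 2 ^ s) hP hk (by positivity) hR1 (by positivity)
          hG1 c1 c2 c3 (by positivity) c4)
      have hc2 := mul_le_mul_of_nonneg_right hc (by positivity : (0 : ℝ) ≤ 16 * (K : ℝ) * X / 4 ^ (s' + s))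
      refine hc2.trans ?_
      rw [hT]
      have e1 : (4 : ℝ) ^ (s' + s) = (2 ^ s' * 2 ^ s) ^ 2 := by
        rw [← pow_add, ← pow_mul, mul_comm (s' + s) 2, pow_mul]
        norm_num
      have a1 : (1 : ℝ) ≤ 2 ^ s' * 2 ^ s := one_le_mul_of_one_le_of_one_le g1 g2
      have a0 : (0 : ℝ) < 2 ^ s' * 2 ^ s := by linarith
      have a2 : (q * 2 ^ s' * 2 ^ s + (q * 2 ^ s' * 2 ^ s) ^ 2 + 2 ^ s' / K) ≤
          (q + q ^ 2 + 1 / K) * 4 ^ (s' + s) := by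
        rw [e1]
        have b1 : (2 : ℝ) ^ s' * 2 ^ s ≤ (2 ^ s' * 2 ^ s) ^ 2 := le_self_pow₀ a1 two_ne_zero
        have b2 : (2 : ℝ) ^ s' ≤ (2 ^ s' * 2 ^ s) ^ 2 :=
          (le_mul_of_one_le_right (by positivity) g2).trans b1
        have b3 : q * (2 ^ s' * 2 ^ s) ≤ q * (2 ^ s' * 2 ^ s) ^ 2 := mul_le_mul_of_nonneg_left b1 hq
        have b4 : (2 : ℝ) ^ s' / K ≤ (2 ^ s' * 2 ^ s) ^ 2 / K := div_le_div_of_nonneg_right b2 hK0.le
        have b5 : (1 / (K : ℝ)) * (2 ^ s' * 2 ^ s) ^ 2 = (2 ^ s' * 2 ^ s) ^ 2 / K := by ring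
        calc _ = q * (2 ^ s' * 2 ^ s) + q ^ 2 * (2 ^ s' * 2 ^ s) ^ 2 + 2 ^ s' / K := by ring
          _ ≤ q * (2 ^ s' * 2 ^ s) ^ 2 + q ^ 2 * (2 ^ s' * 2 ^ s) ^ 2 + (2 ^ s' * 2 ^ s) ^ 2 / K := by linarith
          _ = _ := by rw [← b5]; ring
      calc C * k ^ 4 * P ^ 4 * (q * 2 ^ s' * 2 ^ s + (q * 2 ^ s' * 2 ^ s) ^ 2 + 2 ^ s' / K) * (16 * K * X / 4 ^ (s' + s))
          ≤ C * k ^ 4 * P ^ 4 * ((q + q ^ 2 + 1 / K) * 4 ^ (s' + s)) * (16 * K * X / 4 ^ (s' + s)) := by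
            apply mul_le_mul_of_nonneg_right _ (by positivity)
            exact mul_le_mul_of_nonneg_left a2 (by positivity)
        _ = 16 * K * X * (C * k ^ 4 * P ^ 4 * (q + q ^ 2 + 1 / K)) := by
            have : (0 : ℝ) < 4 ^ (s' + s) := by positivity
            field_simp
    refine (sum_le_card_nsmul _ _ _ h4).trans ?_
    rw [card_range, nsmul_eq_mul, pow_two, mul_assoc]
    apply mul_le_mul_of_nonneg_right _ (by positivity)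
    exact_mod_cast hlog
  refine (mul_le_mul_of_nonneg_left h3 (by positivity)).trans (le_of_eq ?_)
  rw [hT]
  push_cast
  ring

end Pool.Agent.H56.TI2
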