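import Pool.Agent.H56.TI2.Defs

/-!
# TI2 Poi: the number of dual points is at most the number of lattice points (Poisson)

`fej A β ≥ A/4` if `8 A nz β ≤ 1` (reduce to `|β| = nz β` by `fej_int`; `‖∑_{t<A} ee(tβ)‖ ≥ A - ∑ ‖ee(tβ) - 1‖ ≥ A - π A² |β| ≥ A (1 - π/8)`) or if `A = 1` (`fej 1 β = 1`).  So
`#Du · (A/4)(B/4)² ≤ ∑_{u_i ∈ range p_i} fej A (x1+x2-x3-x4) fej B (x2-x3) fej B (x2-x4)` (all terms are `≥ 0`).  By `fej_exp` (see `TI/Fej.lean`) the right hand side is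
`∑_{(n,h,k) ∈ Box A B} (1-|n|/A)(1-|h|/B)(1-|k|/B) ∏ (∑_{u_i < p_i} ee(± u_i ℓ_i/p_i))`, `ℓ = (n, n+h+k, n+h, n+k)`, and the inner sums are `p_i 1[p_i ∣ ℓ_i]` (geometric series; compare `Expand_full` of `TI/Expand.lean`):
`= p1 p2 p3 p4 ∑_{v ∈ Lam A B p} weights ≤ p1 p2 p3 p4 #Lam`.
-/

set_option autoImplicit false

namespace Pool.Agent.H56.TI2

open Finset
open Pool.Agent.H56.TI
open Pool.Agent.H91.PK (ee)
open Pool.Agent.H35.W (pb)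
open Pool.Agent.H53.MID (Bs nz)

private theorem Poi_ee_add (a b : ℝ) : ee (a + b) = ee a * ee b := by
  unfold ee
  rw [← Complex.exp_add]
  congr 1
  push_cast
  ring

private theorem Poi_ee_re (s : ℝ) : (ee s).re = Real.cos (2 * Real.pi * s) := by
  unfold ee
  have h : 2 * (Real.pi : ℂ) * (s : ℂ) * Complex.I = ((2 * Real.pi * s : ℝ) : ℂ) * Complex.I := by
    push_cast
    ring
  rw [h, Complex.exp_ofReal_mul_I_re]

private theorem Poi_ee_pow (t : ℝ) (u : ℕ) : ee ((u : ℝ) * t) = ee t ^ u := by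
  unfold ee
  rw [← Complex.exp_nat_mul]
  congr 1
  push_cast
  ring

private theorem Poi_geom (p : ℕ) (hp : 1 ≤ p) (l : ℤ) :
    ∑ u ∈ range p, ee ((u : ℝ) / p * l) = if (p : ℤ) ∣ l then (p : ℂ) else 0 := by
  have hp0 : (p : ℝ) ≠ 0 := by
    have : p ≠ 0 := by omega
    exact_mod_cast this
  have hpC : (p : ℂ) ≠ 0 := by
    have : p ≠ 0 := by omega
    exact_mod_cast this
  have hz : ∀ u : ℕ, ee ((u : ℝ) / p * l) = ee ((l : ℝ) / p) ^ u := by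
    intro u
    rw [← Poi_ee_pow]
    congr 1
    ring
  simp only [hz]
  have hzp : ee ((l : ℝ) / p) ^ p = 1 := by
    rw [← Poi_ee_pow]
    unfold ee
    rw [Complex.exp_eq_one_iff]
    refine ⟨l, ?_⟩
    push_cast
    field_simp
  by_cases h : (p : ℤ) ∣ l
  · rw [if_pos h]
    obtain ⟨q, rfl⟩ := h
    have h1 : ee (((p * q : ℤ) : ℝ) / p) = 1 := by
      unfold ee
      rw [Complex.exp_eq_one_iff]
      refine ⟨q, ?_⟩
      push_cast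
      field_simp
    rw [h1]
    simp
  · rw [if_neg h]
    have h1 : ee ((l : ℝ) / p) ≠ 1 := by
      intro h1
      unfold ee at h1
      rw [Complex.exp_eq_one_iff] at h1
      obtain ⟨n, hn⟩ := h1
      apply h
      refine ⟨n, ?_⟩
      have hpi : (2 * (Real.pi : ℂ) * Complex.I) ≠ 0 := Complex.two_pi_I_ne_zero
      have h2 : (((l : ℝ) / p : ℝ) : ℂ) = n := by
        have h3 : (((l : ℝ) / p : ℝ) : ℂ) * (2 * Real.pi * Complex.I) = n * (2 * Real.pi * Complex.I) := by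
          rw [← hn]
          ring
        exact mul_right_cancel₀ hpi h3
      have h4 : (l : ℂ) = p * n := by
        rw [← h2]
        push_cast
        field_simp
      exact_mod_cast h4
    rw [geom_sum_eq h1, hzp, sub_self, zero_div]

private theorem Poi_geom_neg (p : ℕ) (hp : 1 ≤ p) (l : ℤ) :
    ∑ u ∈ range p, ee (-((u : ℝ) / p * l)) = if (p : ℤ) ∣ l then (p : ℂ) else 0 := by
  have h := Poi_geom p hp (-l)
  simp only [dvd_neg] at h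
  rw [← h]
  refine Finset.sum_congr rfl fun u _ => ?_
  congr 1
  push_cast
  ring

private theorem Poi_low (K : ℕ) (hK : 1 ≤ K) (β : ℝ) (h : K = 1 ∨ 8 * K * nz β ≤ 1) :
    (K : ℝ) / 4 ≤ fej K β := by
  have hK0 : (0 : ℝ) < K := by exact_mod_cast hK
  rcases h with h | h
  · subst h
    unfold fej ee
    simp
    norm_num
  · obtain ⟨m, hm⟩ := Pool.Agent.H53.MID.nz_exists β
    have h1 : fej K β = fej K (β - m) := by
      have h2 := fej_int K (β - m) m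
      rw [sub_add_cancel] at h2
      exact h2
    rw [h1]
    set γ := β - m with hγ
    have hγ1 : |γ| * K ≤ 1 / 8 := by
      rw [hm]
      linarith
    have hre : (K : ℝ) / 2 ≤ (∑ t ∈ range K, ee ((t : ℝ) * γ)).re := by
      rw [Complex.re_sum]
      have h2 : ∀ t ∈ range K, (1 : ℝ) / 2 ≤ (ee ((t : ℝ) * γ)).re := by
        intro t ht
        rw [Poi_ee_re]
        have ht1 : (t : ℝ) ≤ K := by
          have := Finset.mem_range.1 ht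
          exact_mod_cast this.le
        have h3 : |(t : ℝ) * γ| ≤ 1 / 8 := by
          rw [abs_mul, abs_of_nonneg (Nat.cast_nonneg t), mul_comm]
          exact (mul_le_mul_of_nonneg_left ht1 (abs_nonneg γ)).trans hγ1
        have h4 : |2 * Real.pi * ((t : ℝ) * γ)| ≤ 1 := by
          rw [abs_mul, abs_of_pos (by positivity : (0 : ℝ) < 2 * Real.pi)]
          have := Real.pi_le_four
          nlinarith [abs_nonneg ((t : ℝ) * γ), Real.pi_pos]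
        have h5 := Real.one_sub_sq_div_two_le_cos (x := 2 * Real.pi * ((t : ℝ) * γ))
        have h6 : (2 * Real.pi * ((t : ℝ) * γ)) ^ 2 ≤ 1 := by
          rw [← sq_abs]
          nlinarith [abs_nonneg (2 * Real.pi * ((t : ℝ) * γ))]
        linarith
      calc (K : ℝ) / 2 = ∑ _t ∈ range K, (1 : ℝ) / 2 := by
            rw [sum_const, card_range, nsmul_eq_mul]
            ring
        _ ≤ _ := Finset.sum_le_sum h2
    have hn : (K : ℝ) / 2 ≤ ‖∑ t ∈ range K, ee ((t : ℝ) * γ)‖ :=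
      hre.trans (Complex.re_le_norm _)
    unfold fej
    rw [le_div_iff₀ hK0]
    nlinarith

private theorem Poi_prod {α β : Type*} (s : Finset α) (t : Finset β) (f : α → ℂ) (g : β → ℂ) :
    ∑ x ∈ s ×ˢ t, f x.1 * g x.2 = (∑ a ∈ s, f a) * ∑ b ∈ t, g b := by
  rw [Finset.sum_product, Finset.sum_mul_sum]

/-- the weight -/
private noncomputable def Poi_W (A B : ℕ) (v : ℤ × ℤ × ℤ) : ℝ :=
  (1 - |(v.1 : ℝ)| / A) * ((1 - |(v.2.1 : ℝ)| / B) * (1 - |(v.2.2 : ℝ)| / B))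

private theorem Poi_w1 (K : ℕ) (hK : 1 ≤ K) (n : ℤ) (hn : n ∈ Ioo (-(K : ℤ)) K) :
    0 ≤ 1 - |(n : ℝ)| / K ∧ 1 - |(n : ℝ)| / K ≤ 1 := by
  have hK0 : (0 : ℝ) < K := by exact_mod_cast hK
  rw [Finset.mem_Ioo] at hn
  have h1 : |n| < (K : ℤ) := abs_lt.2 hn
  have h2 : |(n : ℝ)| < K := by exact_mod_cast h1
  have h3 : |(n : ℝ)| / K ≤ 1 := (div_le_one hK0).2 h2.le
  have h4 : 0 ≤ |(n : ℝ)| / K := by positivity
  exact ⟨by linarith, by linarith⟩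

private theorem Poi_W01 (A B : ℕ) (hA : 1 ≤ A) (hB : 1 ≤ B) (v : ℤ × ℤ × ℤ) (hv : v ∈ Box A B) :
    0 ≤ Poi_W A B v ∧ Poi_W A B v ≤ 1 := by
  unfold Box at hv
  rw [Finset.mem_product, Finset.mem_product] at hv
  obtain ⟨h1, h2, h3⟩ := hv
  obtain ⟨a1, a2⟩ := Poi_w1 A hA _ h1
  obtain ⟨b1, b2⟩ := Poi_w1 B hB _ h2
  obtain ⟨c1, c2⟩ := Poi_w1 B hB _ h3
  unfold Poi_W
  constructor
  · positivity
  · have : (1 - |(v.2.1 : ℝ)| / B) * (1 - |(v.2.2 : ℝ)| / B) ≤ 1 := mul_le_one₀ b2 c1 c2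
    exact mul_le_one₀ a2 (by positivity) this

/-- the product of the three kernels -/
private noncomputable def Poi_F (A B : ℕ) (x1 x2 x3 x4 : ℝ) : ℝ :=
  fej A (x1 + x2 - x3 - x4) * (fej B (x2 - x3) * fej B (x2 - x4))

private theorem Poi_Fexp (A B : ℕ) (hA : 1 ≤ A) (hB : 1 ≤ B) (x1 x2 x3 x4 : ℝ) :
    ((Poi_F A B x1 x2 x3 x4 : ℝ) : ℂ) = ∑ v ∈ Box A B, ((Poi_W A B v : ℝ) : ℂ) *
      ((ee (x1 * ((v.1 : ℤ) : ℝ)) * ee (x2 * ((v.1 + v.2.1 + v.2.2 : ℤ) : ℝ))) *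
        (ee (-(x3 * ((v.1 + v.2.1 : ℤ) : ℝ))) * ee (-(x4 * ((v.1 + v.2.2 : ℤ) : ℝ))))) := by
  unfold Poi_F
  push_cast
  rw [fej_exp A hA, fej_exp B hB, fej_exp B hB, ← Poi_prod, ← Poi_prod]
  unfold Box
  refine Finset.sum_congr rfl fun v _ => ?_
  have h1 : ee ((v.1 : ℝ) * (x1 + x2 - x3 - x4)) * (ee ((v.2.1 : ℝ) * (x2 - x3)) * ee ((v.2.2 : ℝ) * (x2 - x4))) =
      (ee (x1 * ((v.1 : ℤ) : ℝ)) * ee (x2 * ((v.1 + v.2.1 + v.2.2 : ℤ) : ℝ))) *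
        (ee (-(x3 * ((v.1 + v.2.1 : ℤ) : ℝ))) * ee (-(x4 * ((v.1 + v.2.2 : ℤ) : ℝ)))) := by
    rw [← Poi_ee_add, ← Poi_ee_add, ← Poi_ee_add, ← Poi_ee_add, ← Poi_ee_add]
    congr 1
    push_cast
    ring
  have h2 : (((v.1 + v.2.1 + v.2.2 : ℤ) : ℝ)) = (v.1 : ℝ) + v.2.1 + v.2.2 := by push_cast; ring
  have h3 : (((v.1 + v.2.1 : ℤ) : ℝ)) = (v.1 : ℝ) + v.2.1 := by push_cast; ring
  have h4 : (((v.1 + v.2.2 : ℤ) : ℝ)) = (v.1 : ℝ) + v.2.2 := by push_cast; ring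
  rw [h2, h3, h4] at h1
  rw [← h1]
  unfold Poi_W
  push_cast
  ring

private theorem Poi_sum (A B : ℕ) (hA : 1 ≤ A) (hB : 1 ≤ B) (p1 p2 p3 p4 : ℕ)
    (hp1 : 1 ≤ p1) (hp2 : 1 ≤ p2) (hp3 : 1 ≤ p3) (hp4 : 1 ≤ p4) :
    ∑ u ∈ (range p1 ×ˢ range p2) ×ˢ (range p3 ×ˢ range p4),
      Poi_F A B ((u.1.1 : ℝ) / p1) ((u.1.2 : ℝ) / p2) ((u.2.1 : ℝ) / p3) ((u.2.2 : ℝ) / p4) =
    ∑ v ∈ Lam A B ((p1, p2), (p3, p4)), Poi_W A B v * ((p1 : ℝ) * p2 * p3 * p4) := by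
  have hC : ((∑ u ∈ (range p1 ×ˢ range p2) ×ˢ (range p3 ×ˢ range p4),
      Poi_F A B ((u.1.1 : ℝ) / p1) ((u.1.2 : ℝ) / p2) ((u.2.1 : ℝ) / p3) ((u.2.2 : ℝ) / p4) : ℝ) : ℂ) =
      ((∑ v ∈ Lam A B ((p1, p2), (p3, p4)), Poi_W A B v * ((p1 : ℝ) * p2 * p3 * p4) : ℝ) : ℂ) := by
    rw [Complex.ofReal_sum]
    simp only [Poi_Fexp A B hA hB]
    rw [Finset.sum_comm]
    unfold Lam
    rw [Finset.sum_filter, Complex.ofReal_sum]
    refine Finset.sum_congr rfl fun v _ => ?_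
    rw [← Finset.mul_sum]
    have h1 := Poi_prod (range p1 ×ˢ range p2) (range p3 ×ˢ range p4)
      (fun a => ee ((a.1 : ℝ) / p1 * ((v.1 : ℤ) : ℝ)) * ee ((a.2 : ℝ) / p2 * ((v.1 + v.2.1 + v.2.2 : ℤ) : ℝ)))
      (fun b => ee (-((b.1 : ℝ) / p3 * ((v.1 + v.2.1 : ℤ) : ℝ))) * ee (-((b.2 : ℝ) / p4 * ((v.1 + v.2.2 : ℤ) : ℝ))))
    have h2 := Poi_prod (range p1) (range p2) (fun a => ee ((a : ℝ) / p1 * ((v.1 : ℤ) : ℝ)))
      (fun a => ee ((a : ℝ) / p2 * ((v.1 + v.2.1 + v.2.2 : ℤ) : ℝ)))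
    have h3 := Poi_prod (range p3) (range p4) (fun b => ee (-((b : ℝ) / p3 * ((v.1 + v.2.1 : ℤ) : ℝ))))
      (fun b => ee (-((b : ℝ) / p4 * ((v.1 + v.2.2 : ℤ) : ℝ))))
    rw [h2, h3, Poi_geom p1 hp1, Poi_geom p2 hp2, Poi_geom_neg p3 hp3, Poi_geom_neg p4 hp4] at h1
    rw [h1]
    by_cases g : IsL ((p1, p2), (p3, p4)) v
    · rw [if_pos g]
      obtain ⟨g1, g2, g3, g4⟩ := g
      rw [if_pos g1, if_pos g2, if_pos g3, if_pos g4]
      push_cast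
      ring
    · rw [if_neg g]
      have g' : ((if (p1 : ℤ) ∣ v.1 then (p1 : ℂ) else 0) * (if (p2 : ℤ) ∣ v.1 + v.2.1 + v.2.2 then (p2 : ℂ) else 0)) *
          ((if (p3 : ℤ) ∣ v.1 + v.2.1 then (p3 : ℂ) else 0) * (if (p4 : ℤ) ∣ v.1 + v.2.2 then (p4 : ℂ) else 0)) = 0 := by
        by_cases g1 : (p1 : ℤ) ∣ v.1
        · by_cases g2 : (p2 : ℤ) ∣ v.1 + v.2.1 + v.2.2
          · by_cases g3 : (p3 : ℤ) ∣ v.1 + v.2.1
            · have g4 : ¬ (p4 : ℤ) ∣ v.1 + v.2.2 := fun g4 => g ⟨g1, g2, g3, g4⟩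
              rw [if_neg g4]
              ring
            · rw [if_neg g3]
              ring
          · rw [if_neg g2]
            ring
        · rw [if_neg g1]
          ring
      rw [g', mul_zero, Complex.ofReal_zero]
  exact_mod_cast hC

theorem du_le_lam (A B : ℕ) (G ρ : ℝ) (p : (ℕ × ℕ) × (ℕ × ℕ)) (hA : 1 ≤ A) (hB : 1 ≤ B)
    (hρ : A = 1 ∨ 8 * A * ρ ≤ 1) (hG : B = 1 ∨ 8 * B * G ≤ 1)
    (hp1 : 1 ≤ p.1.1) (hp2 : 1 ≤ p.1.2) (hp3 : 1 ≤ p.2.1) (hp4 : 1 ≤ p.2.2) :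
    ((Du G ρ p).card : ℝ) * (A * B ^ 2) ≤ 64 * ((p.1.1 : ℝ) * p.1.2 * p.2.1 * p.2.2) * (Lam A B p).card := by
  obtain ⟨⟨p1, p2⟩, ⟨p3, p4⟩⟩ := p
  simp only at hp1 hp2 hp3 hp4 ⊢
  have hA0 : (0 : ℝ) < A := by exact_mod_cast hA
  have hB0 : (0 : ℝ) < B := by exact_mod_cast hB
  have hFn : ∀ x1 x2 x3 x4 : ℝ, 0 ≤ Poi_F A B x1 x2 x3 x4 := fun x1 x2 x3 x4 =>
    mul_nonneg (fej_nonneg _ _) (mul_nonneg (fej_nonneg _ _) (fej_nonneg _ _))
  -- the upper bound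
  have hup : ∑ u ∈ (range p1 ×ˢ range p2) ×ˢ (range p3 ×ˢ range p4),
      Poi_F A B ((u.1.1 : ℝ) / p1) ((u.1.2 : ℝ) / p2) ((u.2.1 : ℝ) / p3) ((u.2.2 : ℝ) / p4) ≤
      ((p1 : ℝ) * p2 * p3 * p4) * (Lam A B ((p1, p2), (p3, p4))).card := by
    rw [Poi_sum A B hA hB p1 p2 p3 p4 hp1 hp2 hp3 hp4]
    calc ∑ v ∈ Lam A B ((p1, p2), (p3, p4)), Poi_W A B v * ((p1 : ℝ) * p2 * p3 * p4)
        ≤ ∑ _v ∈ Lam A B ((p1, p2), (p3, p4)), ((p1 : ℝ) * p2 * p3 * p4) := by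
          refine Finset.sum_le_sum fun v hv => ?_
          have hv' : v ∈ Box A B := (Finset.mem_filter.1 hv).1
          have h1 := (Poi_W01 A B hA hB v hv').2
          have h2 : 0 ≤ (p1 : ℝ) * p2 * p3 * p4 := by positivity
          nlinarith
      _ = _ := by
          rw [sum_const, nsmul_eq_mul, mul_comm]
  -- the lower bound
  have hlow : ∑ _u ∈ Du G ρ ((p1, p2), (p3, p4)), ((A : ℝ) * B ^ 2 / 64) ≤
      ∑ u ∈ Du G ρ ((p1, p2), (p3, p4)),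
        Poi_F A B ((u.1.1 : ℝ) / p1) ((u.1.2 : ℝ) / p2) ((u.2.1 : ℝ) / p3) ((u.2.2 : ℝ) / p4) := by
    refine Finset.sum_le_sum fun u hu => ?_
    unfold Du at hu
    rw [Finset.mem_filter] at hu
    obtain ⟨_, h1, h2, h3⟩ := hu
    simp only at h1 h2 h3
    have e1 : (A : ℝ) / 4 ≤ fej A ((u.1.1 : ℝ) / p1 + (u.1.2 : ℝ) / p2 - (u.2.1 : ℝ) / p3 - (u.2.2 : ℝ) / p4) := by
      apply Poi_low A hA
      rcases hρ with h | h
      · exact Or.inl h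
      · exact Or.inr ((mul_le_mul_of_nonneg_left h1 (by positivity)).trans h)
    have e2 : (B : ℝ) / 4 ≤ fej B ((u.1.2 : ℝ) / p2 - (u.2.1 : ℝ) / p3) := by
      apply Poi_low B hB
      rcases hG with h | h
      · exact Or.inl h
      · exact Or.inr ((mul_le_mul_of_nonneg_left h2 (by positivity)).trans h)
    have e3 : (B : ℝ) / 4 ≤ fej B ((u.1.2 : ℝ) / p2 - (u.2.2 : ℝ) / p4) := by
      apply Poi_low B hB
      rcases hG with h | h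
      · exact Or.inl h
      · exact Or.inr ((mul_le_mul_of_nonneg_left h3 (by positivity)).trans h)
    unfold Poi_F
    have e4 : (B : ℝ) / 4 * (B / 4) ≤ fej B ((u.1.2 : ℝ) / p2 - (u.2.1 : ℝ) / p3) *
        fej B ((u.1.2 : ℝ) / p2 - (u.2.2 : ℝ) / p4) :=
      mul_le_mul e2 e3 (by positivity) (fej_nonneg _ _)
    have e5 := mul_le_mul e1 e4 (by positivity) (fej_nonneg _ _)
    calc (A : ℝ) * B ^ 2 / 64 = A / 4 * (B / 4 * (B / 4)) := by ring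
      _ ≤ _ := e5
  have hsub : Du G ρ ((p1, p2), (p3, p4)) ⊆ (range p1 ×ˢ range p2) ×ˢ (range p3 ×ˢ range p4) := by
    intro u hu
    unfold Du at hu
    rw [Finset.mem_filter] at hu
    have h := hu.1
    simp only [Finset.mem_product, Finset.mem_Ico, Finset.mem_range] at h ⊢
    exact ⟨⟨h.1.1.2, h.1.2.2⟩, ⟨h.2.1.2, h.2.2.2⟩⟩
  have hmid := Finset.sum_le_sum_of_subset_of_nonneg hsub
    (f := fun u : (ℕ × ℕ) × (ℕ × ℕ) => Poi_F A B ((u.1.1 : ℝ) / p1) ((u.1.2 : ℝ) / p2) ((u.2.1 : ℝ) / p3) ((u.2.2 : ℝ) / p4))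
    (fun u _ _ => hFn _ _ _ _)
  rw [sum_const, nsmul_eq_mul] at hlow
  have hall := (hlow.trans hmid).trans hup
  linarith

end Pool.Agent.H56.TI2
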